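import Pool.Agent.Helper15.BM.KLieD
import Pool.Agent.Helper62.BM.KStm

/-!
# Package KC: a Lie algebra which contains an element of rank one
-/

set_option autoImplicit false

open Matrix Finset Module

namespace Pool.Agent.Helper15.BM

variable {k L : Type} [Field k] [Field L] [Algebra k L] {n : ℕ}
variable {ψ : Matrix (Fin n) (Fin n) L} {z l z' l' : Fin n → L}

lemma map_mul_dual (A : Matrix (Fin n) (Fin n) k) (X : Matrix (Fin n) (Fin n) L) (f : L →ₗ[k] k) :
    A * X.map f = (A.map (algebraMap k L) * X).map f := by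
  ext i j
  simp only [Matrix.mul_apply, Matrix.map_apply, map_sum]
  exact Finset.sum_congr rfl fun t _ => by rw [← Algebra.smul_def, map_smul, smul_eq_mul]

lemma dual_mul_map (A : Matrix (Fin n) (Fin n) k) (X : Matrix (Fin n) (Fin n) L) (f : L →ₗ[k] k) :
    X.map f * A = (X * A.map (algebraMap k L)).map f := by
  ext i j
  simp only [Matrix.mul_apply, Matrix.map_apply, map_sum]
  exact Finset.sum_congr rfl fun t _ => by
    rw [mul_comm (X i t), ← Algebra.smul_def, map_smul, smul_eq_mul, mul_comm]

lemma KH.not_gra (H : KH k ψ z l) [CharZero k] (hn : 3 ≤ n) (hz : l ⬝ᵥ z = 0)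
    (K : Gra (SL k ψ) z l z' l') : False := by
  have hch : CharZero L := charZero_of_injective_algebraMap (algebraMap k L).injective
  obtain ⟨X, hdet, hX⟩ := K.exX
  have hn0 : (n : L) ≠ 0 := Nat.cast_ne_zero.2 (by omega)
  have hu : IsUnit X.det := isUnit_iff_ne_zero.2 hdet
  have h1 : ∀ A ∈ SL k ψ, (n : L) • (A * X + X * Aᵀ) = (2 * A.trace) • X := by
    intro A hA
    obtain ⟨c, hc⟩ := hX A hA
    have h2 : ((A * X + X * Aᵀ) * X⁻¹).trace = c * n := by
      rw [hc, Matrix.smul_mul, Matrix.mul_nonsing_inv _ hu, Matrix.trace_smul, Matrix.trace_one,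
        smul_eq_mul, Fintype.card_fin]
    rw [Matrix.add_mul, Matrix.trace_add, Matrix.mul_assoc, Matrix.mul_nonsing_inv _ hu,
      Matrix.mul_one, Matrix.mul_assoc, Matrix.trace_mul_comm X, Matrix.mul_assoc,
      Matrix.nonsing_inv_mul _ hu, Matrix.mul_one, Matrix.trace_transpose] at h2
    rw [hc, smul_smul]
    congr 1
    linear_combination -h2
  have h3 : ∀ f : L →ₗ[k] k, X.map f = 0 := by
    intro f
    apply H.form hn
    have h4 : ∀ A ∈ SS k ψ, (n : k) • (A * X.map f + X.map f * Aᵀ) = (2 * A.trace) • X.map f := by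
      intro A hA
      have h5 := h1 _ (Submodule.subset_span ⟨A, hA, rfl⟩)
      simp only [trace_map', ← Matrix.transpose_map] at h5
      rw [map_mul_dual, dual_mul_map]
      ext i j
      have h6 := congrArg f (congr_fun (congr_fun h5 i) j)
      simp only [Matrix.smul_apply, Matrix.add_apply, Matrix.map_apply, smul_eq_mul] at h6 ⊢
      have h7 : ∀ y : L, (n : L) * y = (n : k) • y := by
        intro y
        rw [Algebra.smul_def, map_natCast]
      have h8 : 2 * algebraMap k L A.trace * X i j = (2 * A.trace) • X i j := by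
        rw [Algebra.smul_def, map_mul, map_ofNat]
      rw [h7, h8, map_smul, map_smul, map_add, smul_eq_mul, smul_eq_mul] at h6
      exact h6
    have h5 : ∀ B ∈ SL k ψ, (n : L) • (B * (X.map f).map (algebraMap k L) +
        (X.map f).map (algebraMap k L) * Bᵀ) =
        (2 * B.trace) • (X.map f).map (algebraMap k L) := by
      intro B hB
      induction hB using Submodule.span_induction with
      | mem x hx =>
        obtain ⟨A, hA, rfl⟩ := hx
        have h6 := h4 A hA
        simp only [trace_map', ← Matrix.transpose_map, ← Matrix.map_mul]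
        ext i j
        have h7 := congrArg (algebraMap k L) (congr_fun (congr_fun h6 i) j)
        simp only [Matrix.smul_apply, Matrix.add_apply, Matrix.map_apply, smul_eq_mul, map_mul,
          map_add, map_natCast, map_ofNat] at h7 ⊢
        exact h7
      | zero => simp
      | add x y _ _ hx hy =>
        rw [Matrix.transpose_add, Matrix.add_mul, Matrix.mul_add, add_add_add_comm, smul_add, hx,
          hy, Matrix.trace_add]
        module
      | smul c x _ hx =>
        rw [Matrix.transpose_smul, Matrix.smul_mul, Matrix.mul_smul, ← smul_add, smul_comm, hx,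
          Matrix.trace_smul, smul_smul, smul_eq_mul]
        congr 1
        ring
    have h6 := h5 ψ (psi_mem ψ)
    have h7 : ψ.trace = 0 := by
      rw [H.rank, Matrix.trace_vecMulVec, dotProduct_comm, hz]
    rw [h7, mul_zero, zero_smul] at h6
    exact (smul_eq_zero.1 h6).resolve_left hn0
  have h4 : X = 0 := by
    ext i j
    refine eq_of_dual (k := k) fun f => ?_
    have h5 := congr_fun (congr_fun (h3 f) i) j
    rw [Matrix.map_apply, Matrix.zero_apply] at h5
    rw [h5, Matrix.zero_apply, map_zero]
  apply hdet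
  have : Nonempty (Fin n) := ⟨⟨0, by omega⟩⟩
  rw [h4, Matrix.det_zero]

/-- The span contains `sl`. -/
theorem KH.sl (H : KH k ψ z l) [CharZero k] {A : Matrix (Fin n) (Fin n) L} (hA : A.trace = 0) :
    A ∈ SL k ψ := by
  have hch : CharZero L := charZero_of_injective_algebraMap (algebraMap k L).injective
  have hE : tt z l ∈ SL k ψ := by
    have h1 := psi_mem (k := k) ψ
    rw [H.rank] at h1 ⊢
    exact h1
  by_cases hz : l ⬝ᵥ z = 0
  · obtain ⟨B, hB, ht⟩ := H.exists_trace
    have hc : l ⬝ᵥ (B.map (algebraMap k L) *ᵥ z) ≠ 0 := by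
      rw [H.rank, Matrix.mul_vecMulVec, Matrix.trace_vecMulVec, dotProduct_comm] at ht
      exact ht
    obtain ⟨z', l', e1, e2, e3, hF, hH⟩ := H.irrLie.exF hE hz (Submodule.subset_span ⟨B, hB, rfl⟩)
      hc
    have T : Tri (SL k ψ) z l z' l' := ⟨H.irrLie, hE, hF, hH, hz, e1, e2, e3⟩
    by_cases hv : ∃ v, v ≠ 0 ∧ InW (SL k ψ) z l z' l' v 0
    · obtain ⟨v, hv0, hv⟩ := hv
      refine sl_of_tt (T.sl ?_ ?_) hA
      · intro u hu hu'
        obtain ⟨w, hw⟩ := T.surj u
        rw [p0_eq hu hu'] at hw
        exact (T.caseA hv0 hv hw).1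
      · intro w hw hw'
        obtain ⟨u, hu⟩ := T.surj' w
        rw [q0_eq hw hw'] at hu
        exact (T.caseA hv0 hv hu).2
    · have K : Gra (SL k ψ) z l z' l' := by
        refine ⟨T, ?_, ?_⟩
        · intro v h
          by_contra h0
          exact hv ⟨v, h0, h⟩
        · intro w h
          by_contra h0
          exact hv (T.caseA' h0 h)
      rcases Nat.lt_or_ge n 3 with hn | hn
      · have hn2 : n = 2 := by have := H.n2; omega
        refine sl_of_tt (T.sl ?_ ?_) hA
        · intro u hu hu'
          rw [n_two hn2 T.lz T.lz' T.l'z T.l'z' hu hu']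
          exact T.zero
        · intro w hw hw'
          have h0 : w = 0 := by
            refine n_two (l := z) (l' := z') (z := l) (z' := l') hn2 ?_ ?_ ?_ ?_ ?_ ?_
            · rw [dotProduct_comm]; exact T.lz
            · rw [dotProduct_comm]; exact T.l'z
            · rw [dotProduct_comm]; exact T.lz'
            · rw [dotProduct_comm]; exact T.l'z'
            · rw [dotProduct_comm]; exact hw
            · rw [dotProduct_comm]; exact hw'
          rw [h0]
          exact T.zero
      · exact (H.not_gra hn hz K).elim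
  · exact all_of_tt (H.irrLie.caseI hE hz) A

/-- The package. -/
theorem klie : Pool.Agent.Helper62.BM.K_Lie := by
  intro k L _ _ _ _ n ψ hn hr hne hinj hinjr hcom hform hlast A hA θ hθ
  obtain ⟨z, l, hzl⟩ := hr
  have H : KH k ψ z l := ⟨hn, hzl, hne, hinj, hinjr, hcom, hform, hlast⟩
  have h1 : A.map (algebraMap k L) ∈ SL k ψ := by
    apply H.sl
    rw [trace_map', hA, map_zero]
  have h2 : (θ.map (algebraMap k L) * A.map (algebraMap k L)).trace = 0 := by
    refine trace_span ψ _ (fun B hB => ?_) h1
    rw [← Matrix.map_mul, trace_map', hB θ hθ, map_zero]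
  rw [← Matrix.map_mul, trace_map'] at h2
  exact (algebraMap k L).injective (by rw [h2, map_zero])

end Pool.Agent.Helper15.BM
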