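import Pool.Agent.Helper15.BM.LieA

/-!
# Package KC, part A: irreducibility, Cartan's criterion and density without a form
-/

set_option autoImplicit false

open Matrix Finset Module

namespace Pool.Agent.Helper15.BM

variable {k L : Type} [Field k] [Field L] [Algebra k L] {n : ℕ}

variable (k) in
/-- The hypotheses of `K_Lie`. -/
structure KH (ψ : Matrix (Fin n) (Fin n) L) (z l : Fin n → L) :
    Prop where
  n2 : 2 ≤ n
  rank : ψ = Matrix.vecMulVec z l
  ne : ψ ≠ 0
  inj : ∀ v : Fin n → k, ψ *ᵥ (fun i => algebraMap k L (v i)) = 0 → v = 0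
  injr : ∀ v : Fin n → k, (fun i => algebraMap k L (v i)) ᵥ* ψ = 0 → v = 0
  com : ∀ x : Matrix (Fin n) (Fin n) k,
    x.map (algebraMap k L) * ψ = ψ * x.map (algebraMap k L) →
      ∃ c : k, x = Matrix.diagonal fun _ => c
  form : 3 ≤ n → ∀ x : Matrix (Fin n) (Fin n) k, ψ * x.map (algebraMap k L) +
      x.map (algebraMap k L) * ψᵀ = 0 → x = 0
  last : ∀ θ : Matrix (Fin n) (Fin n) k, (θ.map (algebraMap k L) * ψ).trace = 0 →
      ψ * θ.map (algebraMap k L) - θ.map (algebraMap k L) * ψ ∈
        Submodule.span L {η : Matrix (Fin n) (Fin n) L | ∃ θ' : Matrix (Fin n) (Fin n) k,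
          (θ'.map (algebraMap k L) * ψ).trace = 0 ∧ η = θ'.map (algebraMap k L)}

variable {ψ : Matrix (Fin n) (Fin n) L} {z l : Fin n → L}

lemma KH.mulVec_psi (H : KH k ψ z l) (v : Fin n → L) : ψ *ᵥ v = (l ⬝ᵥ v) • z := by
  rw [H.rank]
  ext i
  simp only [Matrix.mulVec, Matrix.vecMulVec_apply, dotProduct, Pi.smul_apply, smul_eq_mul,
    Finset.sum_mul]
  exact Finset.sum_congr rfl fun j _ => by ring

lemma KH.vecMul_psi (H : KH k ψ z l) (v : Fin n → L) : v ᵥ* ψ = (v ⬝ᵥ z) • l := by
  rw [H.rank]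
  ext i
  simp only [Matrix.vecMul, Matrix.vecMulVec_apply, dotProduct, Pi.smul_apply, smul_eq_mul,
    Finset.sum_mul]
  exact Finset.sum_congr rfl fun j _ => by ring

lemma KH.lie_mem (H : KH k ψ z l) {A B : Matrix (Fin n) (Fin n) k} (hA : A ∈ SS k ψ)
    (hB : B ∈ SS k ψ) : A * B - B * A ∈ SS k ψ :=
  Pool.Agent.Helper15.BM.lie_mem ψ H.last hA hB

/-- `V` is a simple module. -/
lemma KH.irred (H : KH k ψ z l) (U : Submodule k (Fin n → k))
    (hU : ∀ A ∈ SS k ψ, ∀ u ∈ U, A *ᵥ u ∈ U) (hne : U ≠ ⊥) : U = ⊤ := by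
  by_contra hcon
  obtain ⟨f, hf, hfU⟩ := Submodule.exists_le_ker_of_lt_top U (lt_top_iff_ne_top.2 hcon)
  obtain ⟨u, hu, hu0⟩ := Submodule.exists_mem_ne_zero_of_ne_bot hne
  set r : Fin n → k := fun j => f (Pi.single j 1) with hr
  have hfr : ∀ v : Fin n → k, f v = r ⬝ᵥ v := by
    intro v
    rw [hr]
    conv_lhs => rw [← LinearMap.sum_single_apply (fun _ : Fin n => k) v]
    rw [map_sum]
    simp only [dotProduct]
    refine Finset.sum_congr rfl fun j _ => ?_
    have : (Pi.single j (v j) : Fin n → k) = v j • Pi.single j 1 := by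
      rw [← Pi.single_smul, smul_eq_mul, mul_one]
    rw [this, map_smul, smul_eq_mul, mul_comm]
  have hr0 : r ≠ 0 := by
    intro h0
    apply hf
    ext v
    simp [hfr, h0]
  have h1 : ((Matrix.vecMulVec u r).map (algebraMap k L) * ψ).trace = 0 := by
    apply perp_SS
    intro A hA
    have h2 : (Matrix.vecMulVec u r * A).trace = r ⬝ᵥ (A *ᵥ u) := by
      rw [Matrix.trace_mul_comm, Matrix.mul_vecMulVec, Matrix.trace_vecMulVec, dotProduct_comm]
    rw [h2, ← hfr]
    exact LinearMap.mem_ker.1 (hfU (hU A hA u hu))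
  have h3 : (Matrix.vecMulVec u r).map (algebraMap k L) =
      Matrix.vecMulVec (fun i => algebraMap k L (u i)) (fun i => algebraMap k L (r i)) := by
    ext i j
    simp [Matrix.vecMulVec_apply]
  rw [h3, H.rank, Matrix.trace_mul_comm, Matrix.mul_vecMulVec, Matrix.trace_vecMulVec,
    ← H.rank, H.mulVec_psi, smul_dotProduct, smul_eq_mul] at h1
  rcases mul_eq_zero.1 h1 with h4 | h4
  · apply hu0
    apply H.inj
    rw [H.mulVec_psi, h4, zero_smul]
  · apply hr0
    apply H.injr
    rw [H.vecMul_psi, dotProduct_comm, h4, zero_smul]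


attribute [local instance 100] LieRing.ofAssociativeRing

/-- `SS ψ` as a Lie algebra of endomorphisms. -/
def KH.lieAlg (H : KH k ψ z l) : LieSubalgebra k (Module.End k (Fin n → k)) where
  carrier := {T | LinearMap.toMatrix' T ∈ SS k ψ}
  zero_mem' := by
    simp only [Set.mem_ofPred_eq, map_zero]
    exact (SS k ψ).zero_mem
  add_mem' := by
    intro A B hA hB
    simp only [Set.mem_ofPred_eq, map_add] at *
    exact (SS k ψ).add_mem hA hB
  smul_mem' := by
    intro c A hA
    simp only [Set.mem_ofPred_eq, map_smul] at *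
    exact (SS k ψ).smul_mem c hA
  lie_mem' := by
    intro A B hA hB
    simp only [Set.mem_ofPred_eq, LieRing.of_associative_ring_bracket, map_sub,
      LinearMap.toMatrix'_mul] at *
    exact H.lie_mem hA hB

lemma KH.mem_lieAlg (H : KH k ψ z l) {T : Module.End k (Fin n → k)} :
    T ∈ H.lieAlg ↔ LinearMap.toMatrix' T ∈ SS k ψ := Iff.rfl

lemma KH.traceForm_zero (H : KH k ψ z l)
    (h : ∀ A ∈ SS k ψ, (A.map (algebraMap k L) * ψ).trace = 0) :
    LieModule.traceForm k H.lieAlg (Fin n → k) = 0 := by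
  ext ⟨T, hT⟩ ⟨U, hU⟩
  rw [LieModule.traceForm_apply_apply]
  have h1 : (LieModule.toEnd k H.lieAlg (Fin n → k) ⟨T, hT⟩) = T := rfl
  have h2 : (LieModule.toEnd k H.lieAlg (Fin n → k) ⟨U, hU⟩) = U := rfl
  rw [h1, h2]
  rw [H.mem_lieAlg] at hT hU
  have h3 := hU _ (h _ hT)
  rw [← LinearMap.toMatrix'_comp, ← Matrix.trace_toLin'_eq, Matrix.toLin'_toMatrix'] at h3
  exact h3

lemma KH.comm_of (H : KH k ψ z l) [CharZero k]
    (h : ∀ A ∈ SS k ψ, (A.map (algebraMap k L) * ψ).trace = 0) :
    ∀ A ∈ SS k ψ, ∀ B ∈ SS k ψ, A * B - B * A = 0 := by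
  have hn := H.n2
  have : Nonempty (Fin n) := ⟨⟨0, by omega⟩⟩
  have hnil := LieModule.isNilpotent_derivedSeries_of_traceForm_eq_zero (H.traceForm_zero h)
  let U : Submodule k (Fin n → k) :=
    { carrier := {v | ∀ A ∈ SS k ψ, ∀ B ∈ SS k ψ, (A * B - B * A) *ᵥ v = 0}
      zero_mem' := by intro A _ B _; exact Matrix.mulVec_zero _
      add_mem' := by
        intro v w hv hw A hA B hB
        rw [Matrix.mulVec_add, hv A hA B hB, hw A hA B hB, add_zero]
      smul_mem' := by
        intro c v hv A hA B hB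
        rw [Matrix.mulVec_smul, hv A hA B hB, smul_zero] }
  have hU : U = ⊤ := by
    refine H.irred U ?_ ?_
    · intro C hC v hv A hA B hB
      have h1 : (A * B - B * A) *ᵥ (C *ᵥ v) = ((A * B - B * A) * C - C * (A * B - B * A)) *ᵥ v +
          C *ᵥ ((A * B - B * A) *ᵥ v) := by
        rw [Matrix.mulVec_mulVec, Matrix.mulVec_mulVec, ← Matrix.add_mulVec, sub_add_cancel]
      rw [h1, hv A hA B hB, Matrix.mulVec_zero, add_zero]
      exact hv _ (H.lie_mem hA hB) _ hC
    · have hnt : Nontrivial (LieModule.maxTrivSubmodule k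
          (LieAlgebra.derivedSeries k H.lieAlg 1) (Fin n → k)) :=
        LieModule.nontrivial_max_triv_of_isNilpotent k _ _
      obtain ⟨⟨v, hv⟩, hv0⟩ := exists_ne (0 : LieModule.maxTrivSubmodule k
          (LieAlgebra.derivedSeries k H.lieAlg 1) (Fin n → k))
      intro hbot
      apply hv0
      have hvU : v ∈ U := by
        intro A hA B hB
        rw [LieModule.mem_maxTrivSubmodule] at hv
        let a : H.lieAlg := ⟨Matrix.toLin' A, by
          rw [H.mem_lieAlg, LinearMap.toMatrix'_toLin']; exact hA⟩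
        let b : H.lieAlg := ⟨Matrix.toLin' B, by
          rw [H.mem_lieAlg, LinearMap.toMatrix'_toLin']; exact hB⟩
        have hab : ⁅a, b⁆ ∈ LieAlgebra.derivedSeries k H.lieAlg 1 := by
          rw [LieAlgebra.derivedSeries_def, LieAlgebra.derivedSeriesOfIdeal_succ,
            LieAlgebra.derivedSeriesOfIdeal_zero]
          exact LieSubmodule.lie_mem_lie (LieSubmodule.mem_top _) (LieSubmodule.mem_top _)
        have h2 := hv ⟨⁅a, b⁆, hab⟩
        have h3 : (⟨⁅a, b⁆, hab⟩ : LieAlgebra.derivedSeries k H.lieAlg 1) = ⟨⁅a, b⁆, hab⟩ := rfl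
        have h4 : ⁅(⟨⁅a, b⁆, hab⟩ : LieAlgebra.derivedSeries k H.lieAlg 1), v⁆ =
            (A * B - B * A) *ᵥ v := by
          change (Matrix.toLin' A * Matrix.toLin' B - Matrix.toLin' B * Matrix.toLin' A) v = _
          rw [LinearMap.sub_apply, Module.End.mul_apply, Module.End.mul_apply,
            Matrix.toLin'_apply, Matrix.toLin'_apply, Matrix.toLin'_apply, Matrix.toLin'_apply,
            Matrix.sub_mulVec, Matrix.mulVec_mulVec, Matrix.mulVec_mulVec]
        rw [h4] at h2
        exact h2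
      rw [hbot, Submodule.mem_bot] at hvU
      exact Subtype.ext hvU
  intro A hA B hB
  have h5 : ∀ v, (A * B - B * A) *ᵥ v = 0 := by
    intro v
    have : v ∈ U := by rw [hU]; trivial
    exact this A hA B hB
  ext i j
  have := congr_fun (h5 (Pi.single j 1)) i
  simpa using this

/-- There is an element of `SS ψ` not orthogonal to `ψ`. -/
lemma KH.exists_trace (H : KH k ψ z l) [CharZero k] :
    ∃ A ∈ SS k ψ, (A.map (algebraMap k L) * ψ).trace ≠ 0 := by
  by_contra hcon
  push Not at hcon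
  have h1 := H.comm_of hcon
  have h2 : ∀ A ∈ SS k ψ, ∃ c : k, A = Matrix.diagonal fun _ => c := by
    intro A hA
    apply H.com
    apply comm_SS
    intro B hB
    exact sub_eq_zero.1 (h1 A hA B hB)
  have h3 : ∀ B ∈ SL k ψ, ∃ c : L, B = Matrix.diagonal fun _ => c := by
    intro B hB
    induction hB using Submodule.span_induction with
    | mem x hx =>
      obtain ⟨A, hA, rfl⟩ := hx
      obtain ⟨c, rfl⟩ := h2 A hA
      refine ⟨algebraMap k L c, ?_⟩
      ext i j
      by_cases h : i = j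
      · subst h; simp
      · simp [Matrix.diagonal_apply_ne _ h]
    | zero => exact ⟨0, by simp⟩
    | add x y _ _ hx hy =>
      obtain ⟨c, rfl⟩ := hx
      obtain ⟨d, rfl⟩ := hy
      exact ⟨c + d, by rw [Matrix.diagonal_add]⟩
    | smul a x _ hx =>
      obtain ⟨c, rfl⟩ := hx
      refine ⟨a * c, ?_⟩
      ext i j
      by_cases h : i = j
      · subst h; simp
      · simp [Matrix.diagonal_apply_ne _ h]
  obtain ⟨c, hc⟩ := h3 ψ (psi_mem ψ)
  have hn := H.n2
  have h01 : ψ ⟨0, by omega⟩ ⟨1, by omega⟩ = 0 := by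
    rw [hc, Matrix.diagonal_apply_ne]
    simp [Fin.ext_iff]
  have h00 : ψ ⟨0, by omega⟩ ⟨0, by omega⟩ = c := by rw [hc, Matrix.diagonal_apply_eq]
  have h11 : ψ ⟨1, by omega⟩ ⟨1, by omega⟩ = c := by rw [hc, Matrix.diagonal_apply_eq]
  have hc0 : c ≠ 0 := by
    intro h0
    apply H.ne
    rw [hc, h0]
    simp
  rw [H.rank, Matrix.vecMulVec_apply] at h01 h00 h11
  rcases mul_eq_zero.1 h01 with h | h
  · rw [h, zero_mul] at h00
    exact hc0 h00.symm
  · rw [h, mul_zero] at h11
    exact hc0 h11.symm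



/-- The associative algebra generated by `SS ψ`, as endomorphisms. -/
def KH.alg (_H : KH k ψ z l) : Subalgebra k (Module.End k (Fin n → k)) :=
  Algebra.adjoin k {T | LinearMap.toMatrix' T ∈ SS k ψ}

lemma KH.toLin'_mem (H : KH k ψ z l) {A : Matrix (Fin n) (Fin n) k} (hA : A ∈ SS k ψ) :
    Matrix.toLin' A ∈ H.alg := by
  apply Algebra.subset_adjoin
  change LinearMap.toMatrix' (Matrix.toLin' A) ∈ SS k ψ
  rw [LinearMap.toMatrix'_toLin']
  exact hA

lemma KH.simple (H : KH k ψ z l) : IsSimpleModule H.alg (Fin n → k) := by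
  have hn := H.n2
  have : Nonempty (Fin n) := ⟨⟨0, by omega⟩⟩
  rw [isSimpleModule_iff]
  refine { toNontrivial := inferInstance, eq_bot_or_eq_top := fun W => ?_ }
  let U : Submodule k (Fin n → k) :=
    { carrier := W
      zero_mem' := W.zero_mem
      add_mem' := fun ha hb => W.add_mem ha hb
      smul_mem' := by
        intro c v hv
        have h1 : c • v = (algebraMap k H.alg c) • v := by
          rw [algebraMap_smul]
        rw [h1]
        exact W.smul_mem _ hv }
  have hUW : ∀ v, v ∈ U ↔ v ∈ W := fun v => Iff.rfl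
  by_cases hU : U = ⊥
  · left
    rw [eq_bot_iff]
    intro v hv
    have : v ∈ U := hv
    rw [hU, Submodule.mem_bot] at this
    rw [Submodule.mem_bot]
    exact this
  · right
    have h1 := H.irred U (fun A hA u hu => ?_) hU
    · rw [eq_top_iff]
      intro v _
      rw [← hUW, h1]
      trivial
    · have h2 : A *ᵥ u = (⟨Matrix.toLin' A, H.toLin'_mem hA⟩ : H.alg) • u := by
        rw [← Matrix.toLin'_apply]
        rfl
      rw [hUW, h2]
      exact W.smul_mem _ hu

/-- The endomorphisms of the simple module are scalars. -/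
lemma KH.end_scalar (H : KH k ψ z l) (g : Module.End H.alg (Fin n → k)) :
    ∃ c : k, ∀ v, g v = c • v := by
  have hk : ∀ (c : k) (v : Fin n → k), g (c • v) = c • g v := by
    intro c v
    have h1 : c • v = (algebraMap k H.alg c) • v := by rw [algebraMap_smul]
    rw [h1, map_smul, algebraMap_smul]
  let g' : (Fin n → k) →ₗ[k] (Fin n → k) :=
    { toFun := g, map_add' := map_add g, map_smul' := hk }
  have h1 : (LinearMap.toMatrix' g').map (algebraMap k L) * ψ =
      ψ * (LinearMap.toMatrix' g').map (algebraMap k L) := by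
    apply comm_SS
    intro A hA
    have h2 : g' ∘ₗ Matrix.toLin' A = Matrix.toLin' A ∘ₗ g' := by
      refine LinearMap.ext fun v => ?_
      change g (Matrix.toLin' A v) = Matrix.toLin' A (g v)
      have h3 : ∀ w : Fin n → k, Matrix.toLin' A w =
          (⟨Matrix.toLin' A, H.toLin'_mem hA⟩ : H.alg) • w := fun w => rfl
      rw [h3, h3, map_smul]
    have h4 := congrArg LinearMap.toMatrix' h2
    rw [LinearMap.toMatrix'_comp, LinearMap.toMatrix'_comp, LinearMap.toMatrix'_toLin'] at h4
    exact h4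
  obtain ⟨c, hc⟩ := H.com _ h1
  refine ⟨c, fun v => ?_⟩
  have h5 : g v = Matrix.toLin' (LinearMap.toMatrix' g') v := by
    rw [Matrix.toLin'_toMatrix']
    rfl
  rw [h5, hc, Matrix.toLin'_apply]
  ext i
  rw [Matrix.mulVec_diagonal]
  simp

/-- Burnside's theorem for `SS ψ`. -/
lemma KH.alg_eq_top (H : KH k ψ z l) : H.alg = ⊤ := by
  classical
  rw [eq_top_iff]
  intro T _
  have := H.simple
  let f : Module.End (Module.End H.alg (Fin n → k)) (Fin n → k) :=
    { toFun := T
      map_add' := map_add T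
      map_smul' := by
        intro g v
        obtain ⟨c, hc⟩ := H.end_scalar g
        change T (g v) = g (T v)
        rw [hc, hc, map_smul] }
  obtain ⟨r, hr⟩ := jacobson_density (R := H.alg) (M := Fin n → k) f (Finset.univ.image fun i : Fin n =>
    (Pi.single i 1 : Fin n → k))
  have h1 : T = (r : Module.End k (Fin n → k)) := by
    apply LinearMap.pi_ext'
    intro i
    ext1
    exact hr _ (Finset.mem_image.2 ⟨i, Finset.mem_univ _, rfl⟩)
  rw [h1]
  exact r.2

/-- An `L`-subspace which is stable under `SS ψ` is stable under all matrices over `k`. -/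
lemma KH.stable (H : KH k ψ z l) (W : Submodule L (Fin n → L))
    (hW : ∀ A ∈ SS k ψ, ∀ w ∈ W, A.map (algebraMap k L) *ᵥ w ∈ W) (B : Matrix (Fin n) (Fin n) k) :
    ∀ w ∈ W, B.map (algebraMap k L) *ᵥ w ∈ W := by
  have h1 : ∀ T : Module.End k (Fin n → k), T ∈ H.alg →
      ∀ w ∈ W, (LinearMap.toMatrix' T).map (algebraMap k L) *ᵥ w ∈ W := by
    intro T hT
    induction hT using Algebra.adjoin_induction with
    | mem x hx => exact hW _ hx
    | algebraMap c =>
      intro w hw
      have h2 : (LinearMap.toMatrix' (algebraMap k (Module.End k (Fin n → k)) c)).map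
          (algebraMap k L) *ᵥ w = (algebraMap k L c) • w := by
        have h3 : LinearMap.toMatrix' (algebraMap k (Module.End k (Fin n → k)) c) =
            Matrix.diagonal fun _ => c := by
          rw [LinearMap.toMatrix'_algebraMap]
          rfl
        rw [h3]
        ext i
        rw [Matrix.diagonal_map (map_zero _), Matrix.mulVec_diagonal]
        rfl
      rw [h2]
      exact W.smul_mem _ hw
    | add x y _ _ hx hy =>
      intro w hw
      rw [map_add, Matrix.map_add _ (map_add _), Matrix.add_mulVec]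
      exact W.add_mem (hx w hw) (hy w hw)
    | mul x y _ _ hx hy =>
      intro w hw
      rw [LinearMap.toMatrix'_mul, Matrix.map_mul, ← Matrix.mulVec_mulVec]
      exact hx _ (hy w hw)
  have h2 := h1 (Matrix.toLin' B) (by rw [H.alg_eq_top]; trivial)
  rw [LinearMap.toMatrix'_toLin'] at h2
  exact h2

/-- `L^n` is a simple module over the span of `SS ψ`. -/
lemma KH.dense (H : KH k ψ z l) (W : Submodule L (Fin n → L))
    (hW : ∀ A ∈ SS k ψ, ∀ w ∈ W, A.map (algebraMap k L) *ᵥ w ∈ W) (hne : W ≠ ⊥) (v : Fin n → L) :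
    v ∈ W := by
  obtain ⟨w, hw, hw0⟩ := Submodule.exists_mem_ne_zero_of_ne_bot hne
  obtain ⟨i, hi⟩ : ∃ i, w i ≠ 0 := by
    by_contra hcon
    push Not at hcon
    exact hw0 (funext hcon)
  have h1 : ∀ j : Fin n, (Pi.single j 1 : Fin n → L) ∈ W := by
    intro j
    have h2 := H.stable W hW (Matrix.single j i 1) w hw
    have h3 : (Matrix.single j i (1 : k)).map (algebraMap k L) *ᵥ w =
        w i • (Pi.single j 1 : Fin n → L) := by
      ext t
      simp only [Matrix.mulVec, dotProduct, Matrix.map_apply, Matrix.single_apply, Pi.smul_apply,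
        Pi.single_apply, smul_eq_mul]
      by_cases htj : t = j
      · subst htj
        simp
      · simp [htj, Ne.symm htj]
    rw [h3] at h2
    have h4 := W.smul_mem (w i)⁻¹ h2
    rw [smul_smul, inv_mul_cancel₀ hi, one_smul] at h4
    exact h4
  have h5 : v = ∑ j, v j • (Pi.single j 1 : Fin n → L) := by
    ext t
    simp [Finset.sum_apply, Pi.single_apply]
  rw [h5]
  exact Submodule.sum_mem _ fun j _ => W.smul_mem _ (h1 j)


lemma KH.stable_row (H : KH k ψ z l) (W : Submodule L (Fin n → L))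
    (hW : ∀ A ∈ SS k ψ, ∀ w ∈ W, w ᵥ* A.map (algebraMap k L) ∈ W) (B : Matrix (Fin n) (Fin n) k) :
    ∀ w ∈ W, w ᵥ* B.map (algebraMap k L) ∈ W := by
  have h1 : ∀ T : Module.End k (Fin n → k), T ∈ H.alg →
      ∀ w ∈ W, w ᵥ* (LinearMap.toMatrix' T).map (algebraMap k L) ∈ W := by
    intro T hT
    induction hT using Algebra.adjoin_induction with
    | mem x hx => exact hW _ hx
    | algebraMap c =>
      intro w hw
      have h2 : w ᵥ* (LinearMap.toMatrix' (algebraMap k (Module.End k (Fin n → k)) c)).map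
          (algebraMap k L) = (algebraMap k L c) • w := by
        have h3 : LinearMap.toMatrix' (algebraMap k (Module.End k (Fin n → k)) c) =
            Matrix.diagonal fun _ => c := by
          rw [LinearMap.toMatrix'_algebraMap]
          rfl
        rw [h3]
        ext i
        rw [Matrix.diagonal_map (map_zero _), Matrix.vecMul_diagonal]
        simp [mul_comm]
      rw [h2]
      exact W.smul_mem _ hw
    | add x y _ _ hx hy =>
      intro w hw
      rw [map_add, Matrix.map_add _ (map_add _), Matrix.vecMul_add]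
      exact W.add_mem (hx w hw) (hy w hw)
    | mul x y _ _ hx hy =>
      intro w hw
      rw [LinearMap.toMatrix'_mul, Matrix.map_mul, ← Matrix.vecMul_vecMul]
      exact hy _ (hx w hw)
  have h2 := h1 (Matrix.toLin' B) (by rw [H.alg_eq_top]; trivial)
  rw [LinearMap.toMatrix'_toLin'] at h2
  exact h2

lemma KH.dense_row (H : KH k ψ z l) (W : Submodule L (Fin n → L))
    (hW : ∀ A ∈ SS k ψ, ∀ w ∈ W, w ᵥ* A.map (algebraMap k L) ∈ W) (hne : W ≠ ⊥) (v : Fin n → L) :
    v ∈ W := by
  obtain ⟨w, hw, hw0⟩ := Submodule.exists_mem_ne_zero_of_ne_bot hne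
  obtain ⟨i, hi⟩ : ∃ i, w i ≠ 0 := by
    by_contra hcon
    push Not at hcon
    exact hw0 (funext hcon)
  have h1 : ∀ j : Fin n, (Pi.single j 1 : Fin n → L) ∈ W := by
    intro j
    have h2 := H.stable_row W hW (Matrix.single i j 1) w hw
    have h3 : w ᵥ* (Matrix.single i j (1 : k)).map (algebraMap k L) =
        w i • (Pi.single j 1 : Fin n → L) := by
      ext t
      simp only [Matrix.vecMul, dotProduct, Matrix.map_apply, Matrix.single_apply, Pi.smul_apply,
        Pi.single_apply, smul_eq_mul]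
      by_cases htj : t = j
      · subst htj
        simp
      · simp [htj, Ne.symm htj]
    rw [h3] at h2
    have h4 := W.smul_mem (w i)⁻¹ h2
    rw [smul_smul, inv_mul_cancel₀ hi, one_smul] at h4
    exact h4
  have h5 : v = ∑ j, v j • (Pi.single j 1 : Fin n → L) := by
    ext t
    simp [Finset.sum_apply, Pi.single_apply]
  rw [h5]
  exact Submodule.sum_mem _ fun j _ => W.smul_mem _ (h1 j)

/-- The span is closed under commutators. -/
lemma KH.lie_SL (H : KH k ψ z l) {A B : Matrix (Fin n) (Fin n) L} (hA : A ∈ SL k ψ)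
    (hB : B ∈ SL k ψ) : A * B - B * A ∈ SL k ψ := by
  induction hA using Submodule.span_induction with
  | mem x hx =>
    obtain ⟨a, ha, rfl⟩ := hx
    induction hB using Submodule.span_induction with
    | mem y hy =>
      obtain ⟨b, hb, rfl⟩ := hy
      apply Submodule.subset_span
      refine ⟨_, H.lie_mem ha hb, ?_⟩
      simp only
      rw [Matrix.map_sub _ (map_sub _), Matrix.map_mul, Matrix.map_mul]
    | zero => simp
    | add y w _ _ hy hw =>
      rw [Matrix.mul_add, Matrix.add_mul, add_sub_add_comm]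
      exact (SL k ψ).add_mem hy hw
    | smul c y _ hy =>
      rw [Matrix.mul_smul, Matrix.smul_mul, ← smul_sub]
      exact (SL k ψ).smul_mem c hy
  | zero => simp
  | add y w _ _ hy hw =>
    rw [Matrix.mul_add, Matrix.add_mul, add_sub_add_comm]
    exact (SL k ψ).add_mem hy hw
  | smul c y _ hy =>
    rw [Matrix.mul_smul, Matrix.smul_mul, ← smul_sub]
    exact (SL k ψ).smul_mem c hy

/-- An irreducible Lie algebra of matrices. -/
structure IrrLie (g : Submodule L (Matrix (Fin n) (Fin n) L)) : Prop where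
  lie : ∀ {A B : Matrix (Fin n) (Fin n) L}, A ∈ g → B ∈ g → A * B - B * A ∈ g
  irr : ∀ W : Submodule L (Fin n → L), (∀ A ∈ g, ∀ w ∈ W, A *ᵥ w ∈ W) → W ≠ ⊥ → ∀ v, v ∈ W
  irr' : ∀ W : Submodule L (Fin n → L), (∀ A ∈ g, ∀ w ∈ W, w ᵥ* A ∈ W) → W ≠ ⊥ → ∀ v, v ∈ W

lemma KH.irrLie (H : KH k ψ z l) : IrrLie (SL k ψ) where
  lie := H.lie_SL
  irr := fun W hW hne => H.dense W (fun _ hA => hW _ (Submodule.subset_span ⟨_, hA, rfl⟩)) hne
  irr' := fun W hW hne =>
    H.dense_row W (fun _ hA => hW _ (Submodule.subset_span ⟨_, hA, rfl⟩)) hne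

end Pool.Agent.Helper15.BM
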