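import Pool.Agent.Helper15.BM.KLieA

/-!
# Package KC, part B: rank one elements
-/

set_option autoImplicit false

open Matrix Finset Module

namespace Pool.Agent.Helper15.BM

variable {L : Type} [Field L] {n : ℕ}

/-- The rank one matrix `v ⊗ w`. -/
def tt (v w : Fin n → L) : Matrix (Fin n) (Fin n) L := Matrix.vecMulVec v w

lemma tt_apply (v w : Fin n → L) (i j : Fin n) : tt v w i j = v i * w j := rfl

lemma tt_add_left (v v' w : Fin n → L) : tt (v + v') w = tt v w + tt v' w := by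
  ext i j; simp [tt_apply, add_mul]
lemma tt_add_right (v w w' : Fin n → L) : tt v (w + w') = tt v w + tt v w' := by
  ext i j; simp [tt_apply, mul_add]
lemma tt_sub_left (v v' w : Fin n → L) : tt (v - v') w = tt v w - tt v' w := by
  ext i j; simp [tt_apply, sub_mul]
lemma tt_sub_right (v w w' : Fin n → L) : tt v (w - w') = tt v w - tt v w' := by
  ext i j; simp [tt_apply, mul_sub]
lemma tt_neg_left (v w : Fin n → L) : tt (-v) w = -tt v w := by
  ext i j; simp [tt_apply]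
lemma tt_neg_right (v w : Fin n → L) : tt v (-w) = -tt v w := by
  ext i j; simp [tt_apply]
lemma tt_smul_left (c : L) (v w : Fin n → L) : tt (c • v) w = c • tt v w := by
  ext i j; simp [tt_apply, mul_assoc]
lemma tt_smul_right (c : L) (v w : Fin n → L) : tt v (c • w) = c • tt v w := by
  ext i j; simp [tt_apply]; ring
lemma tt_zero_left (w : Fin n → L) : tt 0 w = 0 := by
  ext i j; simp [tt_apply]
lemma tt_zero_right (v : Fin n → L) : tt v 0 = 0 := by
  ext i j; simp [tt_apply]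

lemma mul_tt (A : Matrix (Fin n) (Fin n) L) (v w : Fin n → L) : A * tt v w = tt (A *ᵥ v) w :=
  Matrix.mul_vecMulVec _ _ _

lemma tt_mul (A : Matrix (Fin n) (Fin n) L) (v w : Fin n → L) : tt v w * A = tt v (w ᵥ* A) :=
  Matrix.vecMulVec_mul _ _ _

lemma tt_mul_tt (v w v' w' : Fin n → L) : tt v w * tt v' w' = (w ⬝ᵥ v') • tt v w' := by
  ext i j
  rw [Matrix.mul_apply, Matrix.smul_apply, smul_eq_mul, tt_apply, dotProduct, Finset.sum_mul]
  exact Finset.sum_congr rfl fun t _ => by rw [tt_apply, tt_apply]; ring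

lemma tt_mulVec (v w x : Fin n → L) : tt v w *ᵥ x = (w ⬝ᵥ x) • v := by
  ext i
  rw [Matrix.mulVec, dotProduct, Pi.smul_apply, smul_eq_mul, dotProduct, Finset.sum_mul]
  exact Finset.sum_congr rfl fun t _ => by rw [tt_apply]; ring

lemma vecMul_tt (v w x : Fin n → L) : x ᵥ* tt v w = (x ⬝ᵥ v) • w := by
  ext i
  rw [Matrix.vecMul, dotProduct, Pi.smul_apply, smul_eq_mul, dotProduct, Finset.sum_mul]
  exact Finset.sum_congr rfl fun t _ => by rw [tt_apply]; ring

variable {g : Submodule L (Matrix (Fin n) (Fin n) L)}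

lemma ne_bot_of_mem {M : Type} [AddCommGroup M] [Module L M] {W : Submodule L M} {x : M}
    (hx : x ∈ W) (h0 : x ≠ 0) : W ≠ ⊥ := by
  intro h
  rw [h, Submodule.mem_bot] at hx
  exact h0 hx

/-- If `g` contains a rank one element with nonzero trace, then it contains everything. -/
theorem IrrLie.caseI [CharZero L] (G : IrrLie g) {z l : Fin n → L} (hE : tt z l ∈ g)
    (hlz : l ⬝ᵥ z ≠ 0) (v w : Fin n → L) : tt v w ∈ g := by
  have key : ∀ v : Fin n → L, tt v l ∈ g → l ⬝ᵥ v ≠ 0 → ∀ A ∈ g, tt (A *ᵥ v) l ∈ g := by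
    intro v hv hlv A hA
    have hB : A * tt v l - tt v l * A ∈ g := G.lie hA hv
    rw [mul_tt, tt_mul] at hB
    have hC := G.lie hB hv
    have h1 : (tt (A *ᵥ v) l - tt v (l ᵥ* A)) * tt v l - tt v l * (tt (A *ᵥ v) l - tt v (l ᵥ* A)) =
        (l ⬝ᵥ v) • (tt (A *ᵥ v) l + tt v (l ᵥ* A)) - (2 * (l ⬝ᵥ A *ᵥ v)) • tt v l := by
      rw [Matrix.sub_mul, Matrix.mul_sub]
      simp only [tt_mul_tt, ← Matrix.dotProduct_mulVec]
      module
    rw [h1] at hC
    have h2 : (2 * (l ⬝ᵥ v)) • tt (A *ᵥ v) l ∈ g := by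
      have h3 : (2 * (l ⬝ᵥ v)) • tt (A *ᵥ v) l =
          (l ⬝ᵥ v) • (tt (A *ᵥ v) l - tt v (l ᵥ* A)) +
          ((l ⬝ᵥ v) • (tt (A *ᵥ v) l + tt v (l ᵥ* A)) - (2 * (l ⬝ᵥ A *ᵥ v)) • tt v l) +
          (2 * (l ⬝ᵥ A *ᵥ v)) • tt v l := by module
      rw [h3]
      exact g.add_mem (g.add_mem (g.smul_mem _ hB) hC) (g.smul_mem _ hv)
    have h4 := g.smul_mem (2 * (l ⬝ᵥ v))⁻¹ h2
    rwa [smul_smul, inv_mul_cancel₀ (mul_ne_zero two_ne_zero hlv), one_smul] at h4
  have hz0 : z ≠ 0 := by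
    rintro rfl
    simp at hlz
  have hl0 : l ≠ 0 := by
    rintro rfl
    simp at hlz
  let P : Submodule L (Fin n → L) :=
    { carrier := {v | tt v l ∈ g}
      zero_mem' := by
        change tt 0 l ∈ g
        rw [tt_zero_left]
        exact g.zero_mem
      add_mem' := by
        intro a b ha hb
        change tt (a + b) l ∈ g
        rw [tt_add_left]
        exact g.add_mem ha hb
      smul_mem' := by
        intro c a ha
        change tt (c • a) l ∈ g
        rw [tt_smul_left]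
        exact g.smul_mem _ ha }
  have hP : ∀ v, tt v l ∈ g := by
    intro v
    refine G.irr P ?_ (ne_bot_of_mem (x := z) hE hz0) v
    intro A hA w hw
    change tt (A *ᵥ w) l ∈ g
    by_cases hlw : l ⬝ᵥ w = 0
    · have h1 : tt (A *ᵥ (w + z)) l ∈ g := by
        apply key _ _ _ A hA
        · rw [tt_add_left]
          exact g.add_mem hw hE
        · rw [dotProduct_add, hlw, zero_add]
          exact hlz
      have h2 := g.sub_mem h1 (key z hE hlz A hA)
      rw [Matrix.mulVec_add, tt_add_left, add_sub_cancel_right] at h2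
      exact h2
    · exact key w hw hlw A hA
  let R : Submodule L (Fin n → L) :=
    { carrier := {w | ∀ v, tt v w ∈ g}
      zero_mem' := by
        intro v
        rw [tt_zero_right]
        exact g.zero_mem
      add_mem' := by
        intro a b ha hb v
        rw [tt_add_right]
        exact g.add_mem (ha v) (hb v)
      smul_mem' := by
        intro c a ha v
        rw [tt_smul_right]
        exact g.smul_mem _ (ha v) }
  have hR : w ∈ R := by
    refine G.irr' R ?_ (ne_bot_of_mem (x := l) hP hl0) w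
    intro A hA w hw v
    have h1 := G.lie hA (hw v)
    rw [mul_tt, tt_mul] at h1
    have h2 := g.sub_mem (hw (A *ᵥ v)) h1
    rwa [sub_sub_cancel] at h2
  exact hR v

/-- The opposite rank one element. -/
theorem IrrLie.exF [CharZero L] (G : IrrLie g) {z l : Fin n → L} (hE : tt z l ∈ g)
    (hlz : l ⬝ᵥ z = 0) {A : Matrix (Fin n) (Fin n) L} (hA : A ∈ g) (hc : l ⬝ᵥ (A *ᵥ z) ≠ 0) :
    ∃ z' l' : Fin n → L, l ⬝ᵥ z' = 1 ∧ l' ⬝ᵥ z = 1 ∧ l' ⬝ᵥ z' = 0 ∧ tt z' l' ∈ g ∧
      tt z' l - tt z l' ∈ g := by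
  set x := A *ᵥ z with hx
  set m := l ᵥ* A with hm
  set c := l ⬝ᵥ x with hcdef
  have hmz : m ⬝ᵥ z = c := by rw [hm, ← Matrix.dotProduct_mulVec]
  set α := (m ⬝ᵥ x) / (2 * c) with hα
  have h2 : (2 : L) ≠ 0 := two_ne_zero
  have hmx : m ⬝ᵥ x = 2 * c * α := by rw [hα]; field_simp
  set z' := c⁻¹ • (x - α • z) with hz'
  set l' := c⁻¹ • (m - α • l) with hl'
  have e1 : l ⬝ᵥ z' = 1 := by
    rw [hz', dotProduct_smul, dotProduct_sub, dotProduct_smul, hlz, ← hcdef]
    simp [hc]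
  have e2 : l' ⬝ᵥ z = 1 := by
    rw [hl', smul_dotProduct, sub_dotProduct, smul_dotProduct, hlz, hmz]
    simp [hc]
  have e3 : l' ⬝ᵥ z' = 0 := by
    rw [hl', hz']
    simp only [smul_dotProduct, sub_dotProduct, dotProduct_smul, dotProduct_sub, smul_eq_mul, hlz,
      hmz, hmx, ← hcdef]
    field_simp
    ring
  have hH0 := G.lie hA hE
  rw [mul_tt, tt_mul, ← hx, ← hm] at hH0
  have xz' : x = c • z' + α • z := by
    rw [hz', smul_smul, mul_inv_cancel₀ hc, one_smul, sub_add_cancel]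
  have ml' : m = c • l' + α • l := by
    rw [hl', smul_smul, mul_inv_cancel₀ hc, one_smul, sub_add_cancel]
  clear_value z' l' α
  have hH : tt z' l - tt z l' ∈ g := by
    have h3 : tt x l - tt z m = c • (tt z' l - tt z l') := by
      rw [xz', ml']
      simp only [tt_add_left, tt_add_right, tt_smul_left, tt_smul_right]
      module
    rw [h3] at hH0
    have h4 := g.smul_mem c⁻¹ hH0
    rwa [smul_smul, inv_mul_cancel₀ hc, one_smul] at h4
  refine ⟨z', l', e1, e2, e3, ?_, hH⟩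
  have hD := G.lie hH0 hA
  have h5 : (tt x l - tt z m) * A - A * (tt x l - tt z m) =
      (2 : L) • tt x m - tt z (m ᵥ* A) - tt (A *ᵥ x) l := by
    rw [Matrix.sub_mul, Matrix.mul_sub, tt_mul, tt_mul, mul_tt, mul_tt, ← hx, ← hm]
    module
  rw [h5] at hD
  obtain ⟨p1, y1, h6⟩ : ∃ p1 y1 : Fin n → L,
      (2 : L) • tt x m - tt z (m ᵥ* A) - tt (A *ᵥ x) l =
        (2 * c ^ 2) • tt z' l' + tt z p1 + tt y1 l := by
    refine ⟨(2 * c * α) • l' + (2 * α ^ 2) • l - m ᵥ* A, (2 * c * α) • z' - A *ᵥ x, ?_⟩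
    generalize m ᵥ* A = p
    generalize A *ᵥ x = y
    rw [xz', ml']
    simp only [tt_add_left, tt_add_right, tt_smul_left, tt_smul_right, tt_sub_left, tt_sub_right]
    module
  rw [h6] at hD
  have hD1 := g.add_mem (G.lie hH hD) hD
  obtain ⟨a, b, d, h7⟩ : ∃ a b d : L,
      (tt z' l - tt z l') * ((2 * c ^ 2) • tt z' l' + tt z p1 + tt y1 l) -
        ((2 * c ^ 2) • tt z' l' + tt z p1 + tt y1 l) * (tt z' l - tt z l') +
        ((2 * c ^ 2) • tt z' l' + tt z p1 + tt y1 l) =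
      (6 * c ^ 2) • tt z' l' + a • tt z l' + b • tt z' l + d • tt z l := by
    refine ⟨p1 ⬝ᵥ z, l ⬝ᵥ y1, -(p1 ⬝ᵥ z') - l' ⬝ᵥ y1, ?_⟩
    simp only [Matrix.sub_mul, Matrix.mul_sub, Matrix.add_mul, Matrix.mul_add, Matrix.smul_mul,
      Matrix.mul_smul, tt_mul_tt, e1, e2, e3, hlz]
    module
  rw [h7] at hD1
  have hD2 := G.lie hH hD1
  have h8 : (tt z' l - tt z l') * ((6 * c ^ 2) • tt z' l' + a • tt z l' + b • tt z' l +
      d • tt z l) - ((6 * c ^ 2) • tt z' l' + a • tt z l' + b • tt z' l +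
      d • tt z l) * (tt z' l - tt z l') = (12 * c ^ 2) • tt z' l' - (2 * d) • tt z l := by
    simp only [Matrix.sub_mul, Matrix.mul_sub, Matrix.add_mul, Matrix.mul_add, Matrix.smul_mul,
      Matrix.mul_smul, tt_mul_tt, e1, e2, e3, hlz]
    module
  rw [h8] at hD2
  have h9 := g.add_mem hD2 (g.smul_mem (2 * d) hE)
  rw [sub_add_cancel] at h9
  have h10 := g.smul_mem (12 * c ^ 2)⁻¹ h9
  have h12 : (12 : L) * c ^ 2 ≠ 0 := mul_ne_zero (by norm_num) (pow_ne_zero _ hc)
  rwa [smul_smul, inv_mul_cancel₀ h12, one_smul] at h10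

end Pool.Agent.Helper15.BM
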