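import Pool.Agent.Helper15.BM.KLieB

/-!
# Package KC, part C: the triple system
-/

set_option autoImplicit false

open Matrix Finset Module

namespace Pool.Agent.Helper15.BM

variable {L : Type} [Field L] {n : ℕ} {g : Submodule L (Matrix (Fin n) (Fin n) L)}

/-- The frame. -/
structure Tri (g : Submodule L (Matrix (Fin n) (Fin n) L)) (z l z' l' : Fin n → L) : Prop where
  G : IrrLie g
  E : tt z l ∈ g
  F : tt z' l' ∈ g
  H : tt z' l - tt z l' ∈ g
  lz : l ⬝ᵥ z = 0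
  lz' : l ⬝ᵥ z' = 1
  l'z : l' ⬝ᵥ z = 1
  l'z' : l' ⬝ᵥ z' = 0

/-- Elements of degree one. -/
structure InW (g : Submodule L (Matrix (Fin n) (Fin n) L)) (z l z' l' : Fin n → L)
    (u w : Fin n → L) : Prop where
  lu : l ⬝ᵥ u = 0
  l'u : l' ⬝ᵥ u = 0
  wz : w ⬝ᵥ z = 0
  wz' : w ⬝ᵥ z' = 0
  mem : tt u l + tt z w ∈ g

/-- The projection to `V₀`. -/
def p0 (z l z' l' : Fin n → L) (v : Fin n → L) : Fin n → L := v - (l' ⬝ᵥ v) • z - (l ⬝ᵥ v) • z'

/-- The projection to the dual of `V₀`. -/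
def q0 (z l z' l' : Fin n → L) (w : Fin n → L) : Fin n → L := w - (w ⬝ᵥ z) • l' - (w ⬝ᵥ z') • l

variable {z l z' l' : Fin n → L}

lemma Tri.l_p0 (T : Tri g z l z' l') (v : Fin n → L) : l ⬝ᵥ p0 z l z' l' v = 0 := by
  unfold p0
  simp only [dotProduct_sub, dotProduct_smul, smul_eq_mul, T.lz, T.lz']
  ring

lemma Tri.l'_p0 (T : Tri g z l z' l') (v : Fin n → L) : l' ⬝ᵥ p0 z l z' l' v = 0 := by
  unfold p0
  simp only [dotProduct_sub, dotProduct_smul, smul_eq_mul, T.l'z, T.l'z']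
  ring

lemma Tri.q0_z (T : Tri g z l z' l') (w : Fin n → L) : q0 z l z' l' w ⬝ᵥ z = 0 := by
  unfold q0
  simp only [sub_dotProduct, smul_dotProduct, smul_eq_mul, T.l'z, T.lz]
  ring

lemma Tri.q0_z' (T : Tri g z l z' l') (w : Fin n → L) : q0 z l z' l' w ⬝ᵥ z' = 0 := by
  unfold q0
  simp only [sub_dotProduct, smul_dotProduct, smul_eq_mul, T.l'z', T.lz']
  ring

lemma p0_eq {v : Fin n → L} (h : l ⬝ᵥ v = 0) (h' : l' ⬝ᵥ v = 0) : p0 z l z' l' v = v := by
  unfold p0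
  rw [h, h', zero_smul, zero_smul, sub_zero, sub_zero]

lemma q0_eq {w : Fin n → L} (h : w ⬝ᵥ z = 0) (h' : w ⬝ᵥ z' = 0) : q0 z l z' l' w = w := by
  unfold q0
  rw [h, h', zero_smul, zero_smul, sub_zero, sub_zero]

lemma p0_add (v v' : Fin n → L) : p0 z l z' l' (v + v') = p0 z l z' l' v + p0 z l z' l' v' := by
  unfold p0
  simp only [dotProduct_add]
  module

lemma p0_smul (c : L) (v : Fin n → L) : p0 z l z' l' (c • v) = c • p0 z l z' l' v := by
  unfold p0
  simp only [dotProduct_smul, smul_eq_mul]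
  module

lemma q0_add (v v' : Fin n → L) : q0 z l z' l' (v + v') = q0 z l z' l' v + q0 z l z' l' v' := by
  unfold q0
  simp only [add_dotProduct]
  module

lemma q0_smul (c : L) (v : Fin n → L) : q0 z l z' l' (c • v) = c • q0 z l z' l' v := by
  unfold q0
  simp only [smul_dotProduct, smul_eq_mul]
  module

lemma InW.add {u w u' w' : Fin n → L} (h : InW g z l z' l' u w) (h' : InW g z l z' l' u' w') :
    InW g z l z' l' (u + u') (w + w') where
  lu := by rw [dotProduct_add, h.lu, h'.lu, add_zero]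
  l'u := by rw [dotProduct_add, h.l'u, h'.l'u, add_zero]
  wz := by rw [add_dotProduct, h.wz, h'.wz, add_zero]
  wz' := by rw [add_dotProduct, h.wz', h'.wz', add_zero]
  mem := by
    have h1 := g.add_mem h.mem h'.mem
    rw [tt_add_left, tt_add_right]
    rw [add_add_add_comm] at h1
    exact h1

lemma InW.smul {u w : Fin n → L} (c : L) (h : InW g z l z' l' u w) :
    InW g z l z' l' (c • u) (c • w) where
  lu := by rw [dotProduct_smul, h.lu, smul_zero]
  l'u := by rw [dotProduct_smul, h.l'u, smul_zero]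
  wz := by rw [smul_dotProduct, h.wz, smul_zero]
  wz' := by rw [smul_dotProduct, h.wz', smul_zero]
  mem := by
    have h1 := g.smul_mem c h.mem
    rw [tt_smul_left, tt_smul_right]
    rw [smul_add] at h1
    exact h1

lemma InW.sub {u w u' w' : Fin n → L} (h : InW g z l z' l' u w) (h' : InW g z l z' l' u' w') :
    InW g z l z' l' (u - u') (w - w') := by
  have h1 := h.add (h'.smul (-1))
  rwa [neg_one_smul, neg_one_smul, ← sub_eq_add_neg, ← sub_eq_add_neg] at h1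

lemma InW.neg {u w : Fin n → L} (h : InW g z l z' l' u w) :
    InW g z l z' l' (-u) (-w) := by
  have h1 := h.smul (-1)
  rwa [neg_one_smul, neg_one_smul] at h1

lemma Tri.zero (_T : Tri g z l z' l') : InW g z l z' l' 0 0 where
  lu := by simp
  l'u := by simp
  wz := by simp
  wz' := by simp
  mem := by rw [tt_zero_left, tt_zero_right, add_zero]; exact g.zero_mem

/-- The bracket with `F`. -/
lemma Tri.F_mem (T : Tri g z l z' l') {u w : Fin n → L} (h : InW g z l z' l' u w) :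
    tt z' w - tt u l' ∈ g := by
  have h1 := T.G.lie T.F h.mem
  have h2 : tt z' l' * (tt u l + tt z w) - (tt u l + tt z w) * tt z' l' = tt z' w - tt u l' := by
    simp only [Matrix.add_mul, Matrix.mul_add, tt_mul_tt, h.l'u, h.wz', T.l'z, T.lz']
    module
  rwa [h2] at h1

lemma Tri.M_mem (T : Tri g z l z' l') {u w u' w' : Fin n → L} (h : InW g z l z' l' u w)
    (h' : InW g z l z' l' u' w') :
    tt u w' + tt u' w - (w ⬝ᵥ u') • tt z l' - (w' ⬝ᵥ u) • tt z' l ∈ g := by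
  have h1 := T.G.lie h.mem (T.F_mem h')
  have h2 : (tt u l + tt z w) * (tt z' w' - tt u' l') - (tt z' w' - tt u' l') * (tt u l + tt z w) =
      tt u w' + tt u' w - (w ⬝ᵥ u') • tt z l' - (w' ⬝ᵥ u) • tt z' l := by
    simp only [Matrix.add_mul, Matrix.mul_add, Matrix.sub_mul, Matrix.mul_sub, tt_mul_tt, h.l'u,
      h.wz', T.l'z, T.lz', h'.lu, h'.wz]
    module
  rwa [h2] at h1

lemma Tri.triple (T : Tri g z l z' l') {u w u' w' u'' w'' : Fin n → L}
    (h : InW g z l z' l' u w) (h' : InW g z l z' l' u' w') (h'' : InW g z l z' l' u'' w'') :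
    InW g z l z' l' ((w' ⬝ᵥ u'') • u + (w ⬝ᵥ u'') • u' + (w' ⬝ᵥ u) • u'')
      (-((w ⬝ᵥ u') • w'' + (w'' ⬝ᵥ u) • w' + (w'' ⬝ᵥ u') • w)) where
  lu := by simp only [dotProduct_add, dotProduct_smul, h.lu, h'.lu, h''.lu, smul_zero, add_zero]
  l'u := by simp only [dotProduct_add, dotProduct_smul, h.l'u, h'.l'u, h''.l'u, smul_zero, add_zero]
  wz := by simp only [neg_dotProduct, add_dotProduct, smul_dotProduct, h.wz, h'.wz, h''.wz,
    smul_zero, add_zero, neg_zero]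
  wz' := by simp only [neg_dotProduct, add_dotProduct, smul_dotProduct, h.wz', h'.wz', h''.wz',
    smul_zero, add_zero, neg_zero]
  mem := by
    have h1 := T.G.lie (T.M_mem h h') h''.mem
    have h2 : (tt u w' + tt u' w - (w ⬝ᵥ u') • tt z l' - (w' ⬝ᵥ u) • tt z' l) *
        (tt u'' l + tt z w'') - (tt u'' l + tt z w'') *
        (tt u w' + tt u' w - (w ⬝ᵥ u') • tt z l' - (w' ⬝ᵥ u) • tt z' l) =
        tt ((w' ⬝ᵥ u'') • u + (w ⬝ᵥ u'') • u' + (w' ⬝ᵥ u) • u'') l +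
        tt z (-((w ⬝ᵥ u') • w'' + (w'' ⬝ᵥ u) • w' + (w'' ⬝ᵥ u') • w)) := by
      simp only [Matrix.add_mul, Matrix.mul_add, Matrix.sub_mul, Matrix.mul_sub, Matrix.smul_mul,
        Matrix.mul_smul, tt_mul_tt, h.lu, h'.lu, h''.lu, h''.l'u, h.wz, h'.wz,
        h''.wz, h''.wz', T.lz, T.lz', T.l'z, tt_add_left, tt_add_right,
        tt_smul_left, tt_smul_right, tt_neg_right]
      module
    rwa [h2] at h1

lemma Tri.g1 (T : Tri g z l z' l') {A : Matrix (Fin n) (Fin n) L} (hA : A ∈ g) :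
    InW g z l z' l' (p0 z l z' l' (A *ᵥ z)) (-q0 z l z' l' (l ᵥ* A)) where
  lu := T.l_p0 _
  l'u := T.l'_p0 _
  wz := by rw [neg_dotProduct, T.q0_z, neg_zero]
  wz' := by rw [neg_dotProduct, T.q0_z', neg_zero]
  mem := by
    have h1 := T.G.lie hA T.E
    rw [mul_tt, tt_mul] at h1
    have h2 : tt (p0 z l z' l' (A *ᵥ z)) l + tt z (-q0 z l z' l' (l ᵥ* A)) =
        (tt (A *ᵥ z) l - tt z (l ᵥ* A)) - (l' ⬝ᵥ A *ᵥ z - l ⬝ᵥ A *ᵥ z') • tt z l -
          (l ⬝ᵥ A *ᵥ z) • (tt z' l - tt z l') := by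
      unfold p0 q0
      simp only [← Matrix.dotProduct_mulVec, tt_sub_left, tt_sub_right, tt_neg_right, tt_smul_left,
        tt_smul_right]
      module
    rw [h2]
    exact g.sub_mem (g.sub_mem h1 (g.smul_mem _ T.E)) (g.smul_mem _ T.H)

lemma Tri.g2 (T : Tri g z l z' l') {A : Matrix (Fin n) (Fin n) L} (hA : A ∈ g) :
    InW g z l z' l' (p0 z l z' l' (A *ᵥ z')) (q0 z l z' l' (l' ᵥ* A)) where
  lu := T.l_p0 _
  l'u := T.l'_p0 _
  wz := T.q0_z _
  wz' := T.q0_z' _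
  mem := by
    have h1 := T.G.lie hA T.F
    rw [mul_tt, tt_mul] at h1
    have h2 : tt (p0 z l z' l' (A *ᵥ z')) l' - tt z' (q0 z l z' l' (l' ᵥ* A)) =
        (tt (A *ᵥ z') l' - tt z' (l' ᵥ* A)) - (l ⬝ᵥ A *ᵥ z' - l' ⬝ᵥ A *ᵥ z) • tt z' l' +
          (l' ⬝ᵥ A *ᵥ z') • (tt z' l - tt z l') := by
      unfold p0 q0
      simp only [← Matrix.dotProduct_mulVec, tt_sub_left, tt_sub_right, tt_smul_left,
        tt_smul_right]
      module
    have h3 : tt (p0 z l z' l' (A *ᵥ z')) l' - tt z' (q0 z l z' l' (l' ᵥ* A)) ∈ g := by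
      rw [h2]
      exact g.add_mem (g.sub_mem h1 (g.smul_mem _ T.F)) (g.smul_mem _ T.H)
    have h4 := T.G.lie h3 T.E
    have h5 : (tt (p0 z l z' l' (A *ᵥ z')) l' - tt z' (q0 z l z' l' (l' ᵥ* A))) * tt z l -
        tt z l * (tt (p0 z l z' l' (A *ᵥ z')) l' - tt z' (q0 z l z' l' (l' ᵥ* A))) =
        tt (p0 z l z' l' (A *ᵥ z')) l + tt z (q0 z l z' l' (l' ᵥ* A)) := by
      simp only [Matrix.sub_mul, Matrix.mul_sub, tt_mul_tt, T.l'z, T.q0_z, T.l_p0, T.lz']
      module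
    rwa [h5] at h4

lemma Tri.g3 (T : Tri g z l z' l') {A : Matrix (Fin n) (Fin n) L} (hA : A ∈ g) {u w : Fin n → L}
    (h : InW g z l z' l' u w) :
    InW g z l z' l' (p0 z l z' l' (A *ᵥ u) - (l ⬝ᵥ A *ᵥ z') • u)
      (-q0 z l z' l' (w ᵥ* A) + (l' ⬝ᵥ A *ᵥ z) • w) where
  lu := by rw [dotProduct_sub, T.l_p0, dotProduct_smul, h.lu, smul_zero, sub_zero]
  l'u := by rw [dotProduct_sub, T.l'_p0, dotProduct_smul, h.l'u, smul_zero, sub_zero]
  wz := by rw [add_dotProduct, neg_dotProduct, T.q0_z, smul_dotProduct, h.wz, smul_zero, neg_zero,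
    add_zero]
  wz' := by rw [add_dotProduct, neg_dotProduct, T.q0_z', smul_dotProduct, h.wz', smul_zero,
    neg_zero, add_zero]
  mem := by
    have h1 := T.G.lie hA h.mem
    have h2 := T.F_mem h
    have h3 := T.M_mem h (T.g1 hA)
    have h4 : tt (p0 z l z' l' (A *ᵥ u) - (l ⬝ᵥ A *ᵥ z') • u) l +
        tt z (-q0 z l z' l' (w ᵥ* A) + (l' ⬝ᵥ A *ᵥ z) • w) =
        (A * (tt u l + tt z w) - (tt u l + tt z w) * A) -
          (l' ⬝ᵥ A *ᵥ u - w ⬝ᵥ A *ᵥ z') • tt z l - (l ⬝ᵥ A *ᵥ z) • (tt z' w - tt u l') -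
          (tt u (-q0 z l z' l' (l ᵥ* A)) + tt (p0 z l z' l' (A *ᵥ z)) w -
            (w ⬝ᵥ p0 z l z' l' (A *ᵥ z)) • tt z l' -
            (-q0 z l z' l' (l ᵥ* A) ⬝ᵥ u) • tt z' l) := by
      rw [Matrix.mul_add, Matrix.add_mul, mul_tt, mul_tt, tt_mul, tt_mul]
      unfold p0 q0
      simp only [neg_dotProduct, sub_dotProduct, smul_dotProduct, dotProduct_sub, dotProduct_smul,
        ← Matrix.dotProduct_mulVec, tt_sub_left, tt_sub_right, tt_neg_right, tt_smul_left,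
        tt_smul_right, tt_add_right, h.lu, h.l'u, h.wz, h.wz', smul_zero, sub_zero]
      module
    rw [h4]
    exact g.sub_mem (g.sub_mem (g.sub_mem h1 (g.smul_mem _ T.E)) (g.smul_mem _ h2)) h3

/-- The first projection of `W` is onto. -/
lemma Tri.surj (T : Tri g z l z' l') (v : Fin n → L) :
    ∃ w, InW g z l z' l' (p0 z l z' l' v) w := by
  let S : Submodule L (Fin n → L) :=
    { carrier := {v | ∃ w, InW g z l z' l' (p0 z l z' l' v) w}
      zero_mem' := by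
        refine ⟨0, ?_⟩
        rw [p0_eq (by simp) (by simp)]
        exact T.zero
      add_mem' := by
        rintro a b ⟨w, hw⟩ ⟨w', hw'⟩
        refine ⟨w + w', ?_⟩
        rw [p0_add]
        exact hw.add hw'
      smul_mem' := by
        rintro c a ⟨w, hw⟩
        refine ⟨c • w, ?_⟩
        rw [p0_smul]
        exact hw.smul c }
  have hz : z ∈ S := by
    refine ⟨0, ?_⟩
    have : p0 z l z' l' z = 0 := by
      unfold p0
      rw [T.l'z, T.lz]
      module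
    rw [this]
    exact T.zero
  have hz0 : z ≠ 0 := by
    rintro rfl
    have := T.l'z
    simp at this
  refine T.G.irr S ?_ (ne_bot_of_mem hz hz0) v
  rintro A hA x ⟨w, hw⟩
  obtain ⟨a, b, h1⟩ : ∃ a b : L, x = a • z + b • z' + p0 z l z' l' x :=
    ⟨l' ⬝ᵥ x, l ⬝ᵥ x, by unfold p0; module⟩
  generalize p0 z l z' l' x = u at hw h1
  subst h1
  have h2 := T.g1 hA
  have h3 := T.g2 hA
  have h4 := T.g3 hA hw
  have h5 := h4.add (hw.smul (l ⬝ᵥ A *ᵥ z'))
  rw [sub_add_cancel] at h5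
  have h6 := ((h2.smul a).add (h3.smul b)).add h5
  change ∃ w, InW g z l z' l' (p0 z l z' l' (A *ᵥ (a • z + b • z' + u))) w
  rw [Matrix.mulVec_add, Matrix.mulVec_add, Matrix.mulVec_smul, Matrix.mulVec_smul, p0_add,
      p0_add, p0_smul, p0_smul]
  exact ⟨_, h6⟩

/-- The second projection of `W` is onto. -/
lemma Tri.surj' (T : Tri g z l z' l') (w : Fin n → L) :
    ∃ u, InW g z l z' l' u (q0 z l z' l' w) := by
  let S : Submodule L (Fin n → L) :=
    { carrier := {w | ∃ u, InW g z l z' l' u (q0 z l z' l' w)}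
      zero_mem' := by
        refine ⟨0, ?_⟩
        rw [q0_eq (by simp) (by simp)]
        exact T.zero
      add_mem' := by
        rintro a b ⟨u, hu⟩ ⟨u', hu'⟩
        refine ⟨u + u', ?_⟩
        rw [q0_add]
        exact hu.add hu'
      smul_mem' := by
        rintro c a ⟨u, hu⟩
        refine ⟨c • u, ?_⟩
        rw [q0_smul]
        exact hu.smul c }
  have hl : l ∈ S := by
    refine ⟨0, ?_⟩
    have : q0 z l z' l' l = 0 := by
      unfold q0
      rw [T.lz', T.lz]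
      module
    rw [this]
    exact T.zero
  have hl0 : l ≠ 0 := by
    rintro rfl
    have := T.lz'
    simp at this
  refine T.G.irr' S ?_ (ne_bot_of_mem hl hl0) w
  rintro A hA x ⟨u, hu⟩
  obtain ⟨a, b, h1⟩ : ∃ a b : L, x = a • l' + b • l + q0 z l z' l' x :=
    ⟨x ⬝ᵥ z, x ⬝ᵥ z', by unfold q0; module⟩
  generalize q0 z l z' l' x = y at hu h1
  subst h1
  have h2 := (T.g1 hA).neg
  have h3 := T.g2 hA
  have h4 := T.g3 hA hu
  have h5 := (hu.smul (l' ⬝ᵥ A *ᵥ z)).sub h4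
  rw [neg_neg] at h2
  have h7 : (l' ⬝ᵥ A *ᵥ z) • y - (-q0 z l z' l' (y ᵥ* A) + (l' ⬝ᵥ A *ᵥ z) • y) =
      q0 z l z' l' (y ᵥ* A) := by abel
  rw [h7] at h5
  have h6 := ((h3.smul a).add (h2.smul b)).add h5
  change ∃ u, InW g z l z' l' u (q0 z l z' l' ((a • l' + b • l + y) ᵥ* A))
  rw [Matrix.add_vecMul, Matrix.add_vecMul, Matrix.smul_vecMul, Matrix.smul_vecMul, q0_add,
      q0_add, q0_smul, q0_smul]
  exact ⟨_, h6⟩

end Pool.Agent.Helper15.BM
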