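import Pool.Agent.Helper15.BM.KLieC

/-!
# Package KC, part D: `sl` or an invariant bivector
-/

set_option autoImplicit false

open Matrix Finset Module

namespace Pool.Agent.Helper15.BM

variable {L : Type} [Field L] {n : ℕ} {g : Submodule L (Matrix (Fin n) (Fin n) L)}
variable {z l z' l' : Fin n → L}

lemma sum_tt (A : Matrix (Fin n) (Fin n) L) : A = ∑ i, tt (Pi.single i 1) (A i) := by
  ext a b
  rw [Matrix.sum_apply, Finset.sum_eq_single a]
  · simp [tt_apply]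
  · intro i _ hi
    simp [tt_apply, Pi.single_eq_of_ne hi.symm]
  · simp

lemma all_of_tt (h : ∀ v w : Fin n → L, tt v w ∈ g) (A : Matrix (Fin n) (Fin n) L) : A ∈ g := by
  rw [sum_tt A]
  exact g.sum_mem fun i _ => h _ _

lemma sl_of_tt {z' l : Fin n → L} (h : ∀ v w : Fin n → L, tt v w - (w ⬝ᵥ v) • tt z' l ∈ g)
    {A : Matrix (Fin n) (Fin n) L} (hA : A.trace = 0) : A ∈ g := by
  have h1 : A = ∑ i, (tt (Pi.single i 1) (A i) - (A i ⬝ᵥ Pi.single i 1) • tt z' l) := by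
    rw [Finset.sum_sub_distrib, ← sum_tt, ← Finset.sum_smul]
    have h2 : ∑ i, A i ⬝ᵥ Pi.single i (1 : L) = A.trace := by
      simp [Matrix.trace]
    rw [h2, hA, zero_smul, sub_zero]
  rw [h1]
  exact g.sum_mem fun i _ => h _ _

lemma InW.split [CharZero L] {a b : Fin n → L} (h : InW g z l z' l' a b)
    (h' : InW g z l z' l' a (-b)) : InW g z l z' l' a 0 ∧ InW g z l z' l' 0 b := by
  have h1 := (h.add h').smul (2 : L)⁻¹
  have h2 := (h.sub h').smul (2 : L)⁻¹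
  rw [add_neg_cancel, smul_zero, ← two_smul L, smul_smul, inv_mul_cancel₀ two_ne_zero,
    one_smul] at h1
  rw [sub_self, smul_zero, sub_neg_eq_add, ← two_smul L, smul_smul, inv_mul_cancel₀ two_ne_zero,
    one_smul] at h2
  exact ⟨h1, h2⟩

lemma Tri.caseA [CharZero L] (T : Tri g z l z' l') {v : Fin n → L} (hv0 : v ≠ 0)
    (hv : InW g z l z' l' v 0) {a b : Fin n → L} (h : InW g z l z' l' a b) :
    InW g z l z' l' a 0 ∧ InW g z l z' l' 0 b := by
  have key : ∀ a b : Fin n → L, InW g z l z' l' a b → b ⬝ᵥ v ≠ 0 →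
      InW g z l z' l' a 0 ∧ InW g z l z' l' 0 b := by
    intro a b h hbv
    have h1 := (T.triple hv h h).sub (hv.smul (b ⬝ᵥ a))
    have h2 := h1.smul (b ⬝ᵥ v)⁻¹
    have h3 : (b ⬝ᵥ v)⁻¹ • ((b ⬝ᵥ a) • v + ((0 : Fin n → L) ⬝ᵥ a) • a + (b ⬝ᵥ v) • a -
        (b ⬝ᵥ a) • v) = a := by
      rw [zero_dotProduct, zero_smul, add_zero, add_sub_cancel_left, smul_smul,
        inv_mul_cancel₀ hbv, one_smul]
    have h4 : (b ⬝ᵥ v)⁻¹ • (-(((0 : Fin n → L) ⬝ᵥ a) • b + (b ⬝ᵥ v) • b +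
        (b ⬝ᵥ a) • (0 : Fin n → L)) - (b ⬝ᵥ a) • (0 : Fin n → L)) = -b := by
      rw [zero_dotProduct, zero_smul, zero_add, smul_zero, add_zero, sub_zero, smul_neg, smul_smul,
        inv_mul_cancel₀ hbv, one_smul]
    rw [h3, h4] at h2
    exact h.split h2
  obtain ⟨j, hj⟩ : ∃ j, v j ≠ 0 := by
    by_contra hcon
    push Not at hcon
    exact hv0 (funext hcon)
  obtain ⟨a1, h1⟩ := T.surj' (Pi.single j 1)
  have hb1 : q0 z l z' l' (Pi.single j 1) ⬝ᵥ v ≠ 0 := by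
    unfold q0
    simp only [sub_dotProduct, smul_dotProduct, hv.lu, hv.l'u, smul_zero, sub_zero]
    simpa using hj
  generalize q0 z l z' l' (Pi.single j 1) = b1 at h1 hb1
  by_cases hbv : b ⬝ᵥ v = 0
  · have h2 := key _ _ (h.add h1) (by rw [add_dotProduct, hbv, zero_add]; exact hb1)
    have h3 := key _ _ h1 hb1
    have h4 := h2.1.sub h3.1
    have h5 := h2.2.sub h3.2
    rw [add_sub_cancel_right, sub_zero] at h4 h5
    exact ⟨h4, h5⟩
  · exact key _ _ h hbv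

lemma Tri.caseA' [CharZero L] (T : Tri g z l z' l') {w : Fin n → L} (hw0 : w ≠ 0)
    (hw : InW g z l z' l' 0 w) : ∃ v, v ≠ 0 ∧ InW g z l z' l' v 0 := by
  obtain ⟨j, hj⟩ : ∃ j, w j ≠ 0 := by
    by_contra hcon
    push Not at hcon
    exact hw0 (funext hcon)
  obtain ⟨b, h⟩ := T.surj (Pi.single j 1)
  have ha1 : w ⬝ᵥ p0 z l z' l' (Pi.single j 1) ≠ 0 := by
    unfold p0
    simp only [dotProduct_sub, dotProduct_smul, hw.wz, hw.wz', smul_zero, sub_zero]
    simpa using hj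
  generalize p0 z l z' l' (Pi.single j 1) = a at h ha1
  refine ⟨a, ?_, ?_⟩
  · rintro rfl
    simp at ha1
  · have h1 := (T.triple hw h h).add (hw.smul (b ⬝ᵥ a))
    have h2 := h1.smul (w ⬝ᵥ a)⁻¹
    have h3 : (w ⬝ᵥ a)⁻¹ • ((b ⬝ᵥ a) • (0 : Fin n → L) + (w ⬝ᵥ a) • a +
        (b ⬝ᵥ (0 : Fin n → L)) • a + (b ⬝ᵥ a) • (0 : Fin n → L)) = a := by
      rw [smul_zero, dotProduct_zero, zero_smul, zero_add, add_zero, add_zero, smul_smul,
        inv_mul_cancel₀ ha1, one_smul]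
    have h4 : (w ⬝ᵥ a)⁻¹ • (-((w ⬝ᵥ a) • b + (b ⬝ᵥ (0 : Fin n → L)) • b + (b ⬝ᵥ a) • w) +
        (b ⬝ᵥ a) • w) = -b := by
      rw [dotProduct_zero, zero_smul, add_zero, neg_add, neg_add_cancel_right, smul_neg, smul_smul,
        inv_mul_cancel₀ ha1, one_smul]
    rw [h3, h4] at h2
    exact (h.split h2).1

/-- If `W` is everything then `g` contains `sl`. -/
lemma Tri.sl (T : Tri g z l z' l') (h1 : ∀ u, l ⬝ᵥ u = 0 → l' ⬝ᵥ u = 0 → InW g z l z' l' u 0)
    (h2 : ∀ w, w ⬝ᵥ z = 0 → w ⬝ᵥ z' = 0 → InW g z l z' l' 0 w) (v w : Fin n → L) :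
    tt v w - (w ⬝ᵥ v) • tt z' l ∈ g := by
  obtain ⟨a, b, e1⟩ : ∃ a b : L, v = a • z + b • z' + p0 z l z' l' v :=
    ⟨l' ⬝ᵥ v, l ⬝ᵥ v, by unfold p0; module⟩
  obtain ⟨c, d, e2⟩ : ∃ a b : L, w = a • l' + b • l + q0 z l z' l' w :=
    ⟨w ⬝ᵥ z, w ⬝ᵥ z', by unfold q0; module⟩
  have hu := h1 _ (T.l_p0 v) (T.l'_p0 v)
  have hy := h2 _ (T.q0_z w) (T.q0_z' w)
  generalize p0 z l z' l' v = u at e1 hu
  generalize q0 z l z' l' w = y at e2 hy
  subst e1
  subst e2
  have m1 := hu.mem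
  have m2 := hy.mem
  have m3 := T.F_mem hu
  have m4 := T.F_mem hy
  have m5 := T.M_mem hu hy
  rw [tt_zero_right, add_zero] at m1
  rw [tt_zero_left, zero_add] at m2
  rw [tt_zero_right, zero_sub] at m3
  rw [tt_zero_left, sub_zero] at m4
  rw [tt_zero_left, zero_dotProduct, zero_smul, add_zero, sub_zero] at m5
  have h3 : tt (a • z + b • z' + u) (c • l' + d • l + y) -
      ((c • l' + d • l + y) ⬝ᵥ (a • z + b • z' + u)) • tt z' l =
      (-(a * c)) • (tt z' l - tt z l') + (a * d) • tt z l + a • tt z y + (b * c) • tt z' l' +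
        b • tt z' y + (-c) • (-tt u l') + d • tt u l + (tt u y - (y ⬝ᵥ u) • tt z' l) := by
    simp only [add_dotProduct, smul_dotProduct, dotProduct_add, dotProduct_smul, T.lz, T.lz',
      T.l'z, T.l'z', hu.lu, hu.l'u, hy.wz, hy.wz', tt_add_left, tt_add_right, tt_smul_left,
      tt_smul_right, smul_eq_mul]
    module
  rw [h3]
  refine g.add_mem (g.add_mem (g.add_mem (g.add_mem (g.add_mem (g.add_mem (g.add_mem ?_ ?_) ?_) ?_)
    ?_) ?_) ?_) m5
  · exact g.smul_mem _ T.H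
  · exact g.smul_mem _ T.E
  · exact g.smul_mem _ m2
  · exact g.smul_mem _ T.F
  · exact g.smul_mem _ m4
  · exact g.smul_mem _ m3
  · exact g.smul_mem _ m1

/-- The graph case. -/
structure Gra (g : Submodule L (Matrix (Fin n) (Fin n) L)) (z l z' l' : Fin n → L) : Prop where
  T : Tri g z l z' l'
  g1 : ∀ v, InW g z l z' l' v 0 → v = 0
  g2 : ∀ w, InW g z l z' l' 0 w → w = 0

lemma Gra.iso [CharZero L] (K : Gra g z l z' l') {u w : Fin n → L} (h : InW g z l z' l' u w) :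
    w ⬝ᵥ u = 0 := by
  have h1 := (K.T.triple h h h).sub (h.smul (3 * (w ⬝ᵥ u)))
  have h2 : (w ⬝ᵥ u) • u + (w ⬝ᵥ u) • u + (w ⬝ᵥ u) • u - (3 * (w ⬝ᵥ u)) • u = 0 := by module
  have h3 : -((w ⬝ᵥ u) • w + (w ⬝ᵥ u) • w + (w ⬝ᵥ u) • w) - (3 * (w ⬝ᵥ u)) • w =
      (-(6 * (w ⬝ᵥ u))) • w := by module
  rw [h2, h3] at h1
  rcases smul_eq_zero.1 (K.g2 _ h1) with h4 | h4
  · rw [neg_eq_zero] at h4
    exact (mul_eq_zero.1 h4).resolve_left (by norm_num)
  · rw [h4, zero_dotProduct]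

lemma Gra.pol [CharZero L] (K : Gra g z l z' l') {u w u' w' : Fin n → L}
    (h : InW g z l z' l' u w) (h' : InW g z l z' l' u' w') : w ⬝ᵥ u' + w' ⬝ᵥ u = 0 := by
  have h1 := K.iso (h.add h')
  rw [add_dotProduct, dotProduct_add, dotProduct_add, K.iso h, K.iso h'] at h1
  linear_combination h1

/-- The extended graph. -/
structure Gr (g : Submodule L (Matrix (Fin n) (Fin n) L)) (z l z' l' : Fin n → L)
    (v w : Fin n → L) : Prop where
  mem : InW g z l z' l' (p0 z l z' l' v) (q0 z l z' l' w)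
  l'v : l' ⬝ᵥ v = w ⬝ᵥ z'
  lv : l ⬝ᵥ v = -(w ⬝ᵥ z)

lemma Gr.add {v w v' w' : Fin n → L} (h : Gr g z l z' l' v w) (h' : Gr g z l z' l' v' w') :
    Gr g z l z' l' (v + v') (w + w') where
  mem := by rw [p0_add, q0_add]; exact h.mem.add h'.mem
  l'v := by rw [dotProduct_add, add_dotProduct, h.l'v, h'.l'v]
  lv := by rw [dotProduct_add, add_dotProduct, h.lv, h'.lv, neg_add]

lemma Gr.smul {v w : Fin n → L} (c : L) (h : Gr g z l z' l' v w) :
    Gr g z l z' l' (c • v) (c • w) where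
  mem := by rw [p0_smul, q0_smul]; exact h.mem.smul c
  l'v := by rw [dotProduct_smul, smul_dotProduct, h.l'v]
  lv := by rw [dotProduct_smul, smul_dotProduct, h.lv, smul_neg]

lemma Gr.sub {v w v' w' : Fin n → L} (h : Gr g z l z' l' v w) (h' : Gr g z l z' l' v' w') :
    Gr g z l z' l' (v - v') (w - w') := by
  have h1 := h.add (h'.smul (-1))
  rwa [neg_one_smul, neg_one_smul, ← sub_eq_add_neg, ← sub_eq_add_neg] at h1

lemma Gra.uniq (K : Gra g z l z' l') {v w v' : Fin n → L} (h : Gr g z l z' l' v w)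
    (h' : Gr g z l z' l' v' w) : v = v' := by
  have h1 := h.sub h'
  rw [sub_self] at h1
  rw [← sub_eq_zero]
  generalize v - v' = x at h1
  have h2 := h1.l'v
  have h3 := h1.lv
  have h4 := h1.mem
  rw [zero_dotProduct] at h2 h3
  rw [neg_zero] at h3
  rw [p0_eq h3 h2, q0_eq (by simp) (by simp)] at h4
  exact K.g1 _ h4

lemma Gra.inj (K : Gra g z l z' l') {w : Fin n → L} (h : Gr g z l z' l' 0 w) : w = 0 := by
  have h2 := h.l'v
  have h3 := h.lv
  have h4 := h.mem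
  rw [dotProduct_zero] at h2 h3
  rw [q0_eq (neg_eq_zero.1 h3.symm) h2.symm, p0_eq (by simp) (by simp)] at h4
  exact K.g2 _ h4

lemma Gra.inv [CharZero L] (K : Gra g z l z' l') {A : Matrix (Fin n) (Fin n) L} (hA : A ∈ g)
    {v w : Fin n → L} (h : Gr g z l z' l' v w) :
    Gr g z l z' l' ((l' ⬝ᵥ A *ᵥ z + l ⬝ᵥ A *ᵥ z') • v - A *ᵥ v) (w ᵥ* A) := by
  have T := K.T
  obtain ⟨c, hc⟩ : ∃ c, c = w ⬝ᵥ z := ⟨_, rfl⟩
  obtain ⟨d, hd⟩ : ∃ d, d = w ⬝ᵥ z' := ⟨_, rfl⟩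
  have e1 : v = d • z - c • z' + p0 z l z' l' v := by
    unfold p0
    rw [h.l'v, h.lv, hc, hd]
    module
  have e2 : w = c • l' + d • l + q0 z l z' l' w := by
    unfold q0
    rw [hc, hd]
    module
  have hm := h.mem
  clear hc hd h
  generalize p0 z l z' l' v = u at e1 hm
  generalize q0 z l z' l' w = y at e2 hm
  subst e1
  subst e2
  have m1 := T.g1 hA
  have m2 := T.g2 hA
  have m3 := T.g3 hA hm
  have q1 := K.pol m1 hm
  have q2 := K.pol m2 hm
  have q1' : l ⬝ᵥ A *ᵥ u = y ⬝ᵥ A *ᵥ z := by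
    unfold p0 q0 at q1
    simp only [neg_dotProduct, sub_dotProduct, smul_dotProduct, dotProduct_sub, dotProduct_smul,
      hm.lu, hm.l'u, hm.wz, hm.wz', ← Matrix.dotProduct_mulVec, smul_zero, sub_zero] at q1
    linear_combination -q1
  have q2' : l' ⬝ᵥ A *ᵥ u = -(y ⬝ᵥ A *ᵥ z') := by
    unfold p0 q0 at q2
    simp only [sub_dotProduct, smul_dotProduct, dotProduct_sub, dotProduct_smul,
      hm.lu, hm.l'u, hm.wz, hm.wz', ← Matrix.dotProduct_mulVec, smul_zero, sub_zero] at q2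
    linear_combination q2
  refine ⟨?_, ?_, ?_⟩
  · have h1 := ((m1.smul (-d)).add (m2.smul c)).add ((hm.smul (l' ⬝ᵥ A *ᵥ z)).sub m3)
    have h2 : p0 z l z' l' ((l' ⬝ᵥ A *ᵥ z + l ⬝ᵥ A *ᵥ z') • (d • z - c • z' + u) -
        A *ᵥ (d • z - c • z' + u)) = (-d) • p0 z l z' l' (A *ᵥ z) + c • p0 z l z' l' (A *ᵥ z') +
        ((l' ⬝ᵥ A *ᵥ z) • u - (p0 z l z' l' (A *ᵥ u) - (l ⬝ᵥ A *ᵥ z') • u)) := by
      unfold p0
      simp only [Matrix.mulVec_add, Matrix.mulVec_sub, Matrix.mulVec_smul, dotProduct_add,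
        dotProduct_sub, dotProduct_smul, smul_eq_mul, T.lz, T.lz', T.l'z, T.l'z', hm.lu, hm.l'u]
      module
    have h3 : q0 z l z' l' ((c • l' + d • l + y) ᵥ* A) = (-d) • -q0 z l z' l' (l ᵥ* A) +
        c • q0 z l z' l' (l' ᵥ* A) + ((l' ⬝ᵥ A *ᵥ z) • y -
        (-q0 z l z' l' (y ᵥ* A) + (l' ⬝ᵥ A *ᵥ z) • y)) := by
      rw [Matrix.add_vecMul, Matrix.add_vecMul, Matrix.smul_vecMul, Matrix.smul_vecMul, q0_add,
        q0_add, q0_smul, q0_smul]
      module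
    rw [h2, h3]
    exact h1
  · simp only [← Matrix.dotProduct_mulVec, Matrix.mulVec_add, Matrix.mulVec_sub,
      Matrix.mulVec_smul, dotProduct_add, dotProduct_sub, dotProduct_smul, smul_eq_mul,
      add_dotProduct, smul_dotProduct, T.l'z, T.l'z', hm.l'u, q2']
    ring
  · simp only [← Matrix.dotProduct_mulVec, Matrix.mulVec_add, Matrix.mulVec_sub,
      Matrix.mulVec_smul, dotProduct_add, dotProduct_sub, dotProduct_smul, smul_eq_mul,
      add_dotProduct, smul_dotProduct, T.lz, T.lz', hm.lu, q1']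
    ring

/-- The invariant bivector. -/
theorem Gra.exX [CharZero L] (K : Gra g z l z' l') :
    ∃ X : Matrix (Fin n) (Fin n) L, X.det ≠ 0 ∧ ∀ A ∈ g, ∃ c : L, A * X + X * Aᵀ = c • X := by
  have T := K.T
  have h1 : ∀ j : Fin n, ∃ v, Gr g z l z' l' v (Pi.single j 1) := by
    intro j
    obtain ⟨u, hu⟩ := T.surj' (Pi.single j 1)
    refine ⟨(Pi.single j 1 ⬝ᵥ z') • z - (Pi.single j 1 ⬝ᵥ z) • z' + u, ?_, ?_, ?_⟩
    · have h2 : p0 z l z' l' ((Pi.single j 1 ⬝ᵥ z') • z - (Pi.single j 1 ⬝ᵥ z) • z' + u) = u := by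
        unfold p0
        simp only [dotProduct_add, dotProduct_sub, dotProduct_smul, smul_eq_mul, T.lz, T.lz',
          T.l'z, T.l'z', hu.lu, hu.l'u]
        module
      rw [h2]
      exact hu
    · simp only [dotProduct_add, dotProduct_sub, dotProduct_smul, smul_eq_mul, T.l'z, T.l'z',
        hu.l'u]
      ring
    · simp only [dotProduct_add, dotProduct_sub, dotProduct_smul, smul_eq_mul, T.lz, T.lz',
        hu.lu]
      ring
  choose col hcol using h1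
  let X : Matrix (Fin n) (Fin n) L := Matrix.of fun i j => col j i
  have hX : ∀ w : Fin n → L, Gr g z l z' l' (X *ᵥ w) w := by
    intro w
    have h2 : ∀ s : Finset (Fin n), Gr g z l z' l' (∑ j ∈ s, w j • col j)
        (∑ j ∈ s, w j • (Pi.single j 1 : Fin n → L)) := by
      intro s
      induction s using Finset.cons_induction with
      | empty =>
        rw [Finset.sum_empty, Finset.sum_empty]
        refine ⟨?_, by simp, by simp⟩
        rw [p0_eq (by simp) (by simp), q0_eq (by simp) (by simp)]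
        exact T.zero
      | cons a s ha ih =>
        rw [Finset.sum_cons, Finset.sum_cons]
        exact ((hcol a).smul (w a)).add ih
    have h3 := h2 Finset.univ
    have h4 : ∑ j, w j • col j = X *ᵥ w := by
      ext i
      simp only [Finset.sum_apply, Pi.smul_apply, smul_eq_mul, Matrix.mulVec, dotProduct]
      exact Finset.sum_congr rfl fun j _ => by rw [mul_comm]; rfl
    have h5 : ∑ j, w j • (Pi.single j 1 : Fin n → L) = w := by
      ext t
      simp [Finset.sum_apply, Pi.single_apply]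
    rwa [h4, h5] at h3
  refine ⟨X, ?_, ?_⟩
  · intro h0
    obtain ⟨w, hw0, hw⟩ := Matrix.exists_mulVec_eq_zero_iff.2 h0
    have h2 := hX w
    rw [hw] at h2
    exact hw0 (K.inj h2)
  · intro A hA
    refine ⟨l' ⬝ᵥ A *ᵥ z + l ⬝ᵥ A *ᵥ z', ?_⟩
    apply Matrix.toLin'.injective
    refine LinearMap.ext fun w => ?_
    rw [Matrix.toLin'_apply, Matrix.toLin'_apply, Matrix.add_mulVec, ← Matrix.mulVec_mulVec,
      ← Matrix.mulVec_mulVec, Matrix.mulVec_transpose, Matrix.smul_mulVec]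
    have h2 := K.uniq (hX (w ᵥ* A)) (K.inv hA (hX w))
    rw [h2]
    abel

lemma n_two {l l' z z' u : Fin n → L} (hn : n = 2) (lz : l ⬝ᵥ z = 0) (lz' : l ⬝ᵥ z' = 1)
    (l'z : l' ⬝ᵥ z = 1) (l'z' : l' ⬝ᵥ z' = 0) (h : l ⬝ᵥ u = 0) (h' : l' ⬝ᵥ u = 0) : u = 0 := by
  subst hn
  let R : Matrix (Fin 2) (Fin 2) L := Matrix.of ![l, l']
  let Z : Matrix (Fin 2) (Fin 2) L := Matrix.of fun i j => (![z', z] j) i
  have h1 : R * Z = 1 := by
    ext i j
    fin_cases i <;> fin_cases j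
    · exact lz'
    · exact lz
    · exact l'z'
    · exact l'z
  have h2 : Z * R = 1 := mul_eq_one_comm.1 h1
  have h3 : R *ᵥ u = 0 := by
    ext i
    fin_cases i
    · exact h
    · exact h'
  rw [← Matrix.one_mulVec u, ← h2, ← Matrix.mulVec_mulVec, h3, Matrix.mulVec_zero]

end Pool.Agent.Helper15.BM
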