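import Pool.Agent.Helper15.BM.LieE

/-!
# Package P6: a Lie algebra which contains an element of rank one
-/

set_option autoImplicit false

open Matrix Finset Module

namespace Pool.Agent.Helper15.BM

variable {k L : Type} [Field k] [Field L] [Algebra k L] {n : ℕ}
variable {Q : Matrix (Fin n) (Fin n) k} {ψ : Matrix (Fin n) (Fin n) L} {z l : Fin n → L}

lemma Hyp.symp_PL (H : Hyp Q ψ z l) {A : Matrix (Fin n) (Fin n) k} (hA : A * Q + Q * Aᵀ = 0) :
    PL L Q * A.map (algebraMap k L) + (A.map (algebraMap k L))ᵀ * PL L Q = 0 := by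
  have h1 : A.map (algebraMap k L) * Q.map (algebraMap k L) +
      Q.map (algebraMap k L) * (A.map (algebraMap k L))ᵀ = 0 := by
    rw [← Matrix.transpose_map, ← Matrix.map_mul, ← Matrix.map_mul, ← Matrix.map_add _ (map_add _),
      hA]
    ext i j
    simp
  calc PL L Q * A.map (algebraMap k L) + (A.map (algebraMap k L))ᵀ * PL L Q
      = PL L Q * (A.map (algebraMap k L) * Q.map (algebraMap k L) +
        Q.map (algebraMap k L) * (A.map (algebraMap k L))ᵀ) * PL L Q := by
        rw [Matrix.mul_add, Matrix.add_mul, ← Matrix.mul_assoc, ← Matrix.mul_assoc,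
          Matrix.mul_assoc (PL L Q * A.map (algebraMap k L)), H.mul_PL, Matrix.mul_one, H.PL_mul,
          Matrix.one_mul]
    _ = 0 := by rw [h1, Matrix.mul_zero, Matrix.zero_mul]

/-- The span is closed under commutators. -/
lemma Hyp.lie_SL (H : Hyp Q ψ z l) {A B : Matrix (Fin n) (Fin n) L} (hA : A ∈ SL k ψ)
    (hB : B ∈ SL k ψ) : A * B - B * A ∈ SL k ψ := by
  induction hA using Submodule.span_induction with
  | mem x hx =>
    obtain ⟨a, ha, rfl⟩ := hx
    induction hB using Submodule.span_induction with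
    | mem y hy =>
      obtain ⟨b, hb, rfl⟩ := hy
      apply Submodule.subset_span
      refine ⟨_, H.lie_mem ha hb, ?_⟩
      simp only
      rw [Matrix.map_sub _ (map_sub _), Matrix.map_mul, Matrix.map_mul]
    | zero => simp
    | add y w _ _ hy hw =>
      rw [Matrix.mul_add, Matrix.add_mul, add_sub_add_comm]
      exact (SL k ψ).add_mem hy hw
    | smul c y _ hy =>
      rw [Matrix.mul_smul, Matrix.smul_mul, ← smul_sub]
      exact (SL k ψ).smul_mem c hy
  | zero => simp
  | add y w _ _ hy hw =>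
    rw [Matrix.mul_add, Matrix.add_mul, add_sub_add_comm]
    exact (SL k ψ).add_mem hy hw
  | smul c y _ hy =>
    rw [Matrix.mul_smul, Matrix.smul_mul, ← smul_sub]
    exact (SL k ψ).smul_mem c hy

/-- `l` is a multiple of `z Q⁻¹`. -/
lemma Hyp.exists_c (H : Hyp Q ψ z l) : ∃ c : L, c ≠ 0 ∧ l = c • (z ᵥ* PL L Q) := by
  have hz : z ≠ 0 := by
    intro h0
    apply H.ne
    rw [H.rank, h0, Matrix.zero_vecMulVec]
  have hl : l ≠ 0 := by
    intro h0
    apply H.ne
    rw [H.rank, h0, Matrix.vecMulVec_zero]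
  set l' : Fin n → L := l ᵥ* Q.map (algebraMap k L) with hl'
  have h1 : l = l' ᵥ* PL L Q := by
    rw [hl', Matrix.vecMul_vecMul, H.mul_PL, Matrix.vecMul_one]
  have h2 : ∀ i j, z j * l' i = z i * l' j := by
    intro i j
    have h3 := congr_fun (congr_fun H.psiQ_symm i) j
    rw [H.rank, Matrix.vecMulVec_mul, Matrix.transpose_apply, Matrix.vecMulVec_apply,
      Matrix.vecMulVec_apply] at h3
    exact h3
  obtain ⟨i, hi⟩ : ∃ i, z i ≠ 0 := by
    by_contra hcon
    push Not at hcon
    exact hz (funext hcon)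
  refine ⟨l' i / z i, ?_, ?_⟩
  · intro h0
    rcases div_eq_zero_iff.1 h0 with h | h
    · apply hl
      have h4 : l' = 0 := by
        ext j
        have h5 := h2 i j
        rw [h, mul_zero] at h5
        exact (mul_eq_zero.1 h5.symm).resolve_left hi
      rw [h1, h4, Matrix.zero_vecMul]
    · exact hi h
  · rw [← Matrix.smul_vecMul, h1]
    congr 1
    ext j
    rw [Pi.smul_apply, smul_eq_mul, div_mul_eq_mul_div, eq_div_iff hi]
    have := h2 i j
    linear_combination -this

lemma Hyp.all_mm (H : Hyp Q ψ z l) [CharZero k] (v w : Fin n → L) :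
    mm (PL L Q) v w ∈ SL k ψ := by
  have : CharZero L := charZero_of_injective_algebraMap (algebraMap k L).injective
  set P := PL L Q with hPdef
  have hP : Pᵀ = -P := H.PL_skew
  obtain ⟨c, hc0, hc⟩ := H.exists_c
  have hz : z ≠ 0 := by
    intro h0
    apply H.ne
    rw [H.rank, h0, Matrix.zero_vecMulVec]
  -- bracket with elements of `SS`
  have br : ∀ A ∈ SS k ψ, ∀ x y : Fin n → L, mm P x y ∈ SL k ψ →
      mm P (A.map (algebraMap k L) *ᵥ x) y + mm P x (A.map (algebraMap k L) *ᵥ y) ∈ SL k ψ := by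
    intro A hA x y hxy
    rw [← lie_mm _ (H.symp_PL (H.symp hA))]
    exact H.lie_SL (Submodule.subset_span ⟨A, hA, rfl⟩) hxy
  have br2 : ∀ a b x y : Fin n → L, mm P a b ∈ SL k ψ → mm P x y ∈ SL k ψ →
      mm P (mm P a b *ᵥ x) y + mm P x (mm P a b *ᵥ y) ∈ SL k ψ := by
    intro a b x y hab hxy
    rw [← lie_mm _ (mm_skew hP a b)]
    exact H.lie_SL hab hxy
  have hzz : mm P z z ∈ SL k ψ := by
    have h1 : mm P z z = (2 * c⁻¹) • ψ := by
      rw [H.rank, hc, Matrix.vecMulVec_smul, smul_smul, mul_assoc, inv_mul_cancel₀ hc0, mul_one]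
      unfold mm
      rw [two_smul]
    rw [h1]
    exact (SL k ψ).smul_mem _ (psi_mem ψ)
  obtain ⟨A, hA, hAt⟩ := H.exists_trace
  set AL := A.map (algebraMap k L) with hAL
  set x := AL *ᵥ z with hx
  set c0 := om P z x with hc0def
  have hc00 : c0 ≠ 0 := by
    intro h0
    apply hAt
    rw [H.rank, Matrix.mul_vecMulVec, Matrix.trace_vecMulVec, dotProduct_comm, hc,
      smul_dotProduct]
    change c • om P z x = 0
    rw [← hc0def, h0, smul_zero]
  have hxz : om P x z = -c0 := om_skew hP x z
  have hzx : mm P z x ∈ SL k ψ := by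
    have h1 := br A hA z z hzz
    rw [← hAL, ← hx, mm_symm x z, ← two_smul L] at h1
    have h2 := (SL k ψ).smul_mem (2 : L)⁻¹ h1
    rwa [smul_smul, inv_mul_cancel₀ (two_ne_zero), one_smul] at h2
  set y := AL *ᵥ x with hy
  have h2 : mm P x x + mm P z y ∈ SL k ψ := by
    have h1 := br A hA z x hzx
    rw [← hAL, ← hx, ← hy] at h1
    exact h1
  set α := -(om P x y) / c0 with hα
  set β := om P z y / c0 with hβ
  set u := y - α • z - β • x with hu
  have om_add : ∀ a b d : Fin n → L, om P a (b + d) = om P a b + om P a d := by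
    intro a b d; exact dotProduct_add _ _ _
  have om_sub : ∀ a b d : Fin n → L, om P a (b - d) = om P a b - om P a d := by
    intro a b d; exact dotProduct_sub _ _ _
  have om_smul : ∀ (t : L) (a b : Fin n → L), om P a (t • b) = t * om P a b := by
    intro t a b; exact dotProduct_smul _ _ _
  have hzu : om P z u = 0 := by
    rw [hu, om_sub, om_sub, om_smul, om_smul, om_self hP, ← hc0def, hβ]
    field_simp
    ring
  have hxu : om P x u = 0 := by
    rw [hu, om_sub, om_sub, om_smul, om_smul, om_self hP, hxz, hα]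
    field_simp
    ring
  have h3 : mm P x x + mm P z u ∈ SL k ψ := by
    have h4 : mm P x x + mm P z u = (mm P x x + mm P z y) - α • mm P z z - β • mm P z x := by
      have h5 : mm P z y = mm P z u + α • mm P z z + β • mm P z x := by
        rw [← mm_smul_right, ← mm_smul_right, ← mm_add_right, ← mm_add_right, hu]
        congr 1
        abel
      rw [h5]
      abel
    rw [h4]
    exact (SL k ψ).sub_mem ((SL k ψ).sub_mem h2 ((SL k ψ).smul_mem _ hzz))
      ((SL k ψ).smul_mem _ hzx)
  -- the action of `H = z x`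
  have hHz : mm P z x *ᵥ z = (-c0) • z := by
    rw [mm_mulVec, hxz, om_self hP, zero_smul, add_zero]
  have hHx : mm P z x *ᵥ x = c0 • x := by
    rw [mm_mulVec, om_self hP, zero_smul, zero_add]
  have hHu : mm P z x *ᵥ u = 0 := by
    rw [mm_mulVec, hxu, hzu, zero_smul, zero_smul, add_zero]
  have hxx : mm P x x ∈ SL k ψ := by
    have h4 : mm P z x * (mm P x x + mm P z u) - (mm P x x + mm P z u) * mm P z x ∈ SL k ψ :=
      H.lie_SL hzx h3
    have h5 : mm P z x * (mm P x x + mm P z u) - (mm P x x + mm P z u) * mm P z x =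
        (2 * c0) • mm P x x - c0 • mm P z u := by
      rw [Matrix.mul_add, Matrix.add_mul, add_sub_add_comm, lie_mm _ (mm_skew hP z x),
        lie_mm _ (mm_skew hP z x), hHx, hHz, hHu, mm_zero_right, mm_smul_left, mm_smul_left,
        mm_smul_right, add_zero, mul_smul, two_smul, neg_smul]
      abel
    rw [h5] at h4
    have h30 : (3 : L) * c0 ≠ 0 := mul_ne_zero (by norm_num) hc00
    have h6 : (3 * c0) • mm P x x = ((2 * c0) • mm P x x - c0 • mm P z u) +
        c0 • (mm P x x + mm P z u) := by module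
    have h7 : (3 * c0) • mm P x x ∈ SL k ψ := by
      rw [h6]
      exact (SL k ψ).add_mem h4 ((SL k ψ).smul_mem _ h3)
    have h8 := (SL k ψ).smul_mem (3 * c0)⁻¹ h7
    rwa [smul_smul, inv_mul_cancel₀ h30, one_smul] at h8
  -- the subspace `T`
  have hxv : ∀ v : Fin n → L, mm P z v ∈ SL k ψ → mm P x v ∈ SL k ψ := by
    intro v hv
    have h4 := br2 x x z v hxx hv
    have h5 : mm P (mm P x x *ᵥ z) v + mm P z (mm P x x *ᵥ v) =
        (-(2 * c0)) • mm P x v + (2 * om P x v) • mm P z x := by
      rw [mm_mulVec, mm_mulVec, hxz, mm_add_left, mm_add_right, mm_smul_left, mm_smul_right]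
      module
    rw [h5] at h4
    have h6 := (SL k ψ).sub_mem h4 ((SL k ψ).smul_mem (2 * om P x v) hzx)
    rw [add_sub_cancel_right] at h6
    have h7 := (SL k ψ).smul_mem (-(2 * c0))⁻¹ h6
    rwa [smul_smul, inv_mul_cancel₀ (neg_ne_zero.2 (mul_ne_zero two_ne_zero hc00)),
      one_smul] at h7
  have hvw : ∀ v w : Fin n → L, mm P z v ∈ SL k ψ → mm P z w ∈ SL k ψ → mm P v w ∈ SL k ψ := by
    intro v w hv hw
    have h4 := br2 x v z w (hxv v hv) hw
    have h5 : mm P (mm P x v *ᵥ z) w + mm P z (mm P x v *ᵥ w) =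
        om P v z • mm P x w + (-c0) • mm P v w + (om P v w • mm P z x + om P x w • mm P z v) := by
      rw [mm_mulVec, mm_mulVec, hxz, mm_add_left, mm_add_right, mm_smul_left, mm_smul_left,
        mm_smul_right, mm_smul_right]
    rw [h5] at h4
    have h6 := (SL k ψ).sub_mem ((SL k ψ).sub_mem h4 ((SL k ψ).add_mem
      ((SL k ψ).smul_mem (om P v w) hzx) ((SL k ψ).smul_mem (om P x w) hv)))
      ((SL k ψ).smul_mem (om P v z) (hxv w hw))
    rw [add_sub_cancel_right, add_sub_cancel_left] at h6
    have h7 := (SL k ψ).smul_mem (-c0)⁻¹ h6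
    rwa [smul_smul, inv_mul_cancel₀ (neg_ne_zero.2 hc00), one_smul] at h7
  let T : Submodule L (Fin n → L) :=
    { carrier := {v | mm P z v ∈ SL k ψ}
      zero_mem' := by
        change mm P z 0 ∈ SL k ψ
        rw [mm_zero_right]
        exact (SL k ψ).zero_mem
      add_mem' := by
        intro v w hv hw
        change mm P z (v + w) ∈ SL k ψ
        rw [mm_add_right]
        exact (SL k ψ).add_mem hv hw
      smul_mem' := by
        intro t v hv
        change mm P z (t • v) ∈ SL k ψ
        rw [mm_smul_right]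
        exact (SL k ψ).smul_mem _ hv }
  have hT : ∀ v, v ∈ T := by
    intro v
    refine H.dense T ?_ ?_ v
    · intro B hB w hw
      have h4 : mm P z (B.map (algebraMap k L) *ᵥ z) ∈ SL k ψ := by
        have h1 := br B hB z z hzz
        rw [mm_symm (B.map (algebraMap k L) *ᵥ z) z, ← two_smul L] at h1
        have h2 := (SL k ψ).smul_mem (2 : L)⁻¹ h1
        rwa [smul_smul, inv_mul_cancel₀ (two_ne_zero), one_smul] at h2
      have h5 := br B hB z w hw
      have h6 := hvw _ w h4 hw
      have h7 := (SL k ψ).sub_mem h5 h6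
      rw [add_sub_cancel_left] at h7
      exact h7
    · intro hbot
      have h4 : z ∈ T := hzz
      rw [hbot, Submodule.mem_bot] at h4
      exact hz h4
  exact hvw v w (hT v) (hT w)

/-- The package. -/
theorem Hyp.final (H : Hyp Q ψ z l) [CharZero k] (A : Matrix (Fin n) (Fin n) k)
    (hA : A * Q + Q * Aᵀ = 0) (θ : Matrix (Fin n) (Fin n) k)
    (hθ : (θ.map (algebraMap k L) * ψ).trace = 0) : (θ * A).trace = 0 := by
  have hch : CharZero L := charZero_of_injective_algebraMap (algebraMap k L).injective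
  have h1 : A.map (algebraMap k L) ∈ SL k ψ := by
    set S : Matrix (Fin n) (Fin n) L := (A * Q).map (algebraMap k L) with hS
    have h2 : A.map (algebraMap k L) = S * PL L Q := by
      rw [hS, Matrix.map_mul, Matrix.mul_assoc, H.mul_PL, Matrix.mul_one]
    have h3 : Sᵀ = S := by
      rw [hS, ← Matrix.transpose_map, Matrix.transpose_mul, H.skewQ, Matrix.neg_mul,
        neg_eq_of_add_eq_zero_left hA]
    have h4 : (2 : L) • (S * PL L Q) = ∑ i, ∑ j, S i j •
        mm (PL L Q) (Pi.single i 1) (Pi.single j 1) := by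
      have h5 : S * PL L Q = ∑ i, ∑ j, S i j •
          Matrix.vecMulVec (Pi.single i (1 : L)) ((Pi.single j (1 : L)) ᵥ* PL L Q) := by
        ext a b
        simp only [Matrix.sum_apply, Matrix.smul_apply, Matrix.vecMulVec_apply, smul_eq_mul,
          Matrix.single_one_vecMul, Matrix.row_apply]
        rw [Finset.sum_eq_single a, Matrix.mul_apply]
        · simp
        · intro i _ hi
          simp [Pi.single_eq_of_ne hi.symm]
        · simp
      have h6 : S * PL L Q = ∑ i, ∑ j, S i j •
          Matrix.vecMulVec (Pi.single j (1 : L)) ((Pi.single i (1 : L)) ᵥ* PL L Q) := by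
        rw [h5, Finset.sum_comm]
        refine Finset.sum_congr rfl fun i _ => Finset.sum_congr rfl fun j _ => ?_
        have : S j i = S i j := congr_fun (congr_fun h3 i) j
        rw [this]
      rw [two_smul]
      conv_lhs => arg 1; rw [h5]
      conv_lhs => arg 2; rw [h6]
      rw [← Finset.sum_add_distrib]
      refine Finset.sum_congr rfl fun i _ => ?_
      rw [← Finset.sum_add_distrib]
      refine Finset.sum_congr rfl fun j _ => ?_
      rw [← smul_add]
      rfl
    have h7 : (2 : L) • (S * PL L Q) ∈ SL k ψ := by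
      rw [h4]
      exact Submodule.sum_mem _ fun i _ => Submodule.sum_mem _ fun j _ =>
        (SL k ψ).smul_mem _ (H.all_mm _ _)
    have h8 := (SL k ψ).smul_mem (2 : L)⁻¹ h7
    rw [smul_smul, inv_mul_cancel₀ (two_ne_zero), one_smul] at h8
    rw [h2]
    exact h8
  have h2 : (θ.map (algebraMap k L) * A.map (algebraMap k L)).trace = 0 := by
    refine trace_span ψ _ (fun B hB => ?_) h1
    rw [← Matrix.map_mul, trace_map', hB θ hθ, map_zero]
  rw [← Matrix.map_mul, trace_map'] at h2
  exact (algebraMap k L).injective (by rw [h2, map_zero])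

theorem lie : Pool.Agent.Helper62.BM.S_Lie := by
  intro k L _ _ _ _ n Q ψ hn hQs hQd hr hne hsk hinj hcom hlast A hA θ hθ
  obtain ⟨z, l, hzl⟩ := hr
  exact Hyp.final (z := z) (l := l) ⟨hn, hQs, hQd, hzl, hne, hsk, hinj, hcom, hlast⟩ A hA θ hθ

end Pool.Agent.Helper15.BM
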