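import Mathlib

/-!
# Package P6, part A: the minimal subspace of a matrix over an extension
-/

set_option autoImplicit false

open Matrix Finset Module

namespace Pool.Agent.Helper15.BM

variable {k L : Type} [Field k] [Field L] [Algebra k L] {n : ℕ}

variable (k) in
/-- The matrices over `k` which are orthogonal (trace form) to all `θ` over `k` orthogonal to `ψ`. -/
def SS (ψ : Matrix (Fin n) (Fin n) L) : Submodule k (Matrix (Fin n) (Fin n) k) where
  carrier := {A | ∀ θ : Matrix (Fin n) (Fin n) k, (θ.map (algebraMap k L) * ψ).trace = 0 →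
    (θ * A).trace = 0}
  zero_mem' := by intro θ _; simp
  add_mem' := by
    intro A B hA hB θ hθ
    rw [Matrix.mul_add, Matrix.trace_add, hA θ hθ, hB θ hθ, add_zero]
  smul_mem' := by
    intro c A hA θ hθ
    rw [Matrix.mul_smul, Matrix.trace_smul, hA θ hθ, smul_zero]

variable (k) in
/-- The `L`-span of `SS k ψ`. -/
def SL (ψ : Matrix (Fin n) (Fin n) L) : Submodule L (Matrix (Fin n) (Fin n) L) :=
  Submodule.span L ((fun A : Matrix (Fin n) (Fin n) k => A.map (algebraMap k L)) ''
      (SS k ψ : Set (Matrix (Fin n) (Fin n) k)))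

lemma mem_SS {ψ : Matrix (Fin n) (Fin n) L} {A : Matrix (Fin n) (Fin n) k} :
    A ∈ SS k ψ ↔ ∀ θ : Matrix (Fin n) (Fin n) k, (θ.map (algebraMap k L) * ψ).trace = 0 →
      (θ * A).trace = 0 := Iff.rfl

lemma trace_dual (ψ : Matrix (Fin n) (Fin n) L) (f : L →ₗ[k] k) (θ : Matrix (Fin n) (Fin n) k) :
    (θ * ψ.map f).trace = f ((θ.map (algebraMap k L) * ψ).trace) := by
  simp only [Matrix.trace, Matrix.diag_apply, Matrix.mul_apply, Matrix.map_apply, map_sum]
  refine Finset.sum_congr rfl fun i _ => Finset.sum_congr rfl fun j _ => ?_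
  rw [← Algebra.smul_def, map_smul, smul_eq_mul]

lemma dual_mem (ψ : Matrix (Fin n) (Fin n) L) (f : L →ₗ[k] k) : ψ.map f ∈ SS k ψ := by
  intro θ hθ
  rw [trace_dual, hθ, map_zero]

/-- `ψ` is in the `L`-span of `SS ψ`. -/
lemma psi_mem (ψ : Matrix (Fin n) (Fin n) L) :
    ψ ∈ SL k ψ := by
  classical
  let b := Module.Free.chooseBasis k L
  let T : Finset (Module.Free.ChooseBasisIndex k L) :=
    univ.biUnion fun i : Fin n => univ.biUnion fun j : Fin n => (b.repr (ψ i j)).support
  have h : ψ = ∑ t ∈ T, b t • (ψ.map (b.coord t)).map (algebraMap k L) := by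
    ext i j
    rw [Matrix.sum_apply]
    simp only [Matrix.smul_apply, Matrix.map_apply, smul_eq_mul, Module.Basis.coord_apply]
    conv_lhs => rw [← b.linearCombination_repr (ψ i j)]
    rw [Finsupp.linearCombination_apply, Finsupp.sum_of_support_subset (s := T)]
    · refine Finset.sum_congr rfl fun t _ => ?_
      rw [Algebra.smul_def, mul_comm]
    · intro t ht
      exact Finset.mem_biUnion.2 ⟨i, Finset.mem_univ _, Finset.mem_biUnion.2
        ⟨j, Finset.mem_univ _, ht⟩⟩
    · intro t _
      rw [zero_smul]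
  have h2 : (∑ t ∈ T, b t • (ψ.map (b.coord t)).map (algebraMap k L)) ∈ SL k ψ :=
    Submodule.sum_mem _ fun t _ => Submodule.smul_mem _ _ (Submodule.subset_span
      ⟨_, dual_mem ψ (b.coord t), rfl⟩)
  rw [← h] at h2
  exact h2

/-- The orthogonal of `SS ψ` is the set of the `θ` orthogonal to `ψ`. -/
lemma perp_SS (ψ : Matrix (Fin n) (Fin n) L) (θ : Matrix (Fin n) (Fin n) k)
    (h : ∀ A ∈ SS k ψ, (θ * A).trace = 0) : (θ.map (algebraMap k L) * ψ).trace = 0 := by
  rw [← Module.forall_dual_apply_eq_zero_iff k]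
  intro f
  rw [← trace_dual]
  exact h _ (dual_mem ψ f)

lemma eq_of_dual {x y : L} (h : ∀ f : L →ₗ[k] k, f x = f y) : x = y := by
  rw [← sub_eq_zero, ← Module.forall_dual_apply_eq_zero_iff k]
  intro f
  rw [map_sub, h f, sub_self]

/-- What commutes with `SS ψ` commutes with `ψ`. -/
lemma comm_SS (ψ : Matrix (Fin n) (Fin n) L) (x : Matrix (Fin n) (Fin n) k)
    (h : ∀ A ∈ SS k ψ, x * A = A * x) :
    x.map (algebraMap k L) * ψ = ψ * x.map (algebraMap k L) := by
  ext i j
  refine eq_of_dual (k := k) fun f => ?_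
  have h1 := congr_fun (congr_fun (h _ (dual_mem ψ f)) i) j
  simp only [Matrix.mul_apply, Matrix.map_apply] at h1 ⊢
  simp only [map_sum]
  rw [show (∑ t, f (algebraMap k L (x i t) * ψ t j)) = ∑ t, x i t * f (ψ t j) from
    Finset.sum_congr rfl fun t _ => by rw [← Algebra.smul_def, map_smul, smul_eq_mul], h1]
  refine Finset.sum_congr rfl fun t _ => ?_
  rw [mul_comm (ψ i t), ← Algebra.smul_def, map_smul, smul_eq_mul, mul_comm]

/-- A linear form on matrices which kills `SS ψ` kills its `L`-span; here `tr (θ ·)`. -/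
lemma trace_span (ψ : Matrix (Fin n) (Fin n) L) (θ : Matrix (Fin n) (Fin n) L)
    (h : ∀ A ∈ SS k ψ, (θ * A.map (algebraMap k L)).trace = 0) {B : Matrix (Fin n) (Fin n) L}
    (hB : B ∈ SL k ψ) : (θ * B).trace = 0 := by
  induction hB using Submodule.span_induction with
  | mem x hx =>
    obtain ⟨A, hA, rfl⟩ := hx
    exact h A hA
  | zero => simp
  | add x y _ _ hx hy => rw [Matrix.mul_add, Matrix.trace_add, hx, hy, add_zero]
  | smul c x _ hx => rw [Matrix.mul_smul, Matrix.trace_smul, hx, smul_zero]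

lemma trace_map' (A : Matrix (Fin n) (Fin n) k) :
    (A.map (algebraMap k L)).trace = algebraMap k L A.trace := by
  simp [Matrix.trace, map_sum]

/-- `SS ψ` is closed under commutators. -/
lemma lie_mem (ψ : Matrix (Fin n) (Fin n) L)
    (hlast : ∀ θ : Matrix (Fin n) (Fin n) k, (θ.map (algebraMap k L) * ψ).trace = 0 →
      ψ * θ.map (algebraMap k L) - θ.map (algebraMap k L) * ψ ∈
        Submodule.span L {η : Matrix (Fin n) (Fin n) L | ∃ θ' : Matrix (Fin n) (Fin n) k,
          (θ'.map (algebraMap k L) * ψ).trace = 0 ∧ η = θ'.map (algebraMap k L)})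
    {A B : Matrix (Fin n) (Fin n) k} (hA : A ∈ SS k ψ) (hB : B ∈ SS k ψ) :
    A * B - B * A ∈ SS k ψ := by
  intro θ hθ
  have h1 : ((B * θ - θ * B).map (algebraMap k L) * ψ).trace = 0 := by
    have h2 : ((B * θ - θ * B).map (algebraMap k L) * ψ).trace =
        -(B.map (algebraMap k L) *
          (ψ * θ.map (algebraMap k L) - θ.map (algebraMap k L) * ψ)).trace := by
      rw [Matrix.map_sub _ (map_sub _), Matrix.map_mul, Matrix.map_mul, Matrix.sub_mul,
        Matrix.mul_sub, Matrix.trace_sub, Matrix.trace_sub, Matrix.mul_assoc, Matrix.mul_assoc,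
        Matrix.trace_mul_comm (θ.map _), Matrix.mul_assoc]
      ring
    rw [h2, neg_eq_zero]
    have h3 := hlast θ hθ
    generalize ψ * θ.map (algebraMap k L) - θ.map (algebraMap k L) * ψ = E at h3
    induction h3 using Submodule.span_induction with
    | mem x hx =>
      obtain ⟨θ', hθ', rfl⟩ := hx
      rw [← Matrix.map_mul, trace_map', Matrix.trace_mul_comm, hB θ' hθ', map_zero]
    | zero => simp
    | add x y _ _ hx hy => rw [Matrix.mul_add, Matrix.trace_add, hx, hy, add_zero]
    | smul c x _ hx => rw [Matrix.mul_smul, Matrix.trace_smul, hx, smul_zero]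
  have h4 := hA _ h1
  rw [Matrix.sub_mul, Matrix.trace_sub] at h4
  rw [Matrix.mul_sub, Matrix.trace_sub, ← Matrix.mul_assoc, ← Matrix.mul_assoc,
    Matrix.trace_mul_comm (θ * A) B, ← Matrix.mul_assoc]
  exact h4

end Pool.Agent.Helper15.BM
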