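import Pool.Agent.Helper15.BM.LieA

/-!
# Package P6, part B: irreducibility
-/

set_option autoImplicit false

open Matrix Finset Module

namespace Pool.Agent.Helper15.BM

variable {k L : Type} [Field k] [Field L] [Algebra k L] {n : ℕ}

/-- The hypotheses of `S_Lie`. -/
structure Hyp (Q : Matrix (Fin n) (Fin n) k) (ψ : Matrix (Fin n) (Fin n) L) (z l : Fin n → L) :
    Prop where
  n2 : 2 ≤ n
  skewQ : Qᵀ = -Q
  detQ : Q.det ≠ 0
  rank : ψ = Matrix.vecMulVec z l
  ne : ψ ≠ 0
  skew : ψ * Q.map (algebraMap k L) + Q.map (algebraMap k L) * ψᵀ = 0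
  inj : ∀ v : Fin n → k, ψ *ᵥ (fun i => algebraMap k L (v i)) = 0 → v = 0
  com : ∀ x : Matrix (Fin n) (Fin n) k,
    x.map (algebraMap k L) * ψ = ψ * x.map (algebraMap k L) →
      ∃ c : k, x = Matrix.diagonal fun _ => c
  last : ∀ θ : Matrix (Fin n) (Fin n) k, (θ.map (algebraMap k L) * ψ).trace = 0 →
      ψ * θ.map (algebraMap k L) - θ.map (algebraMap k L) * ψ ∈
        Submodule.span L {η : Matrix (Fin n) (Fin n) L | ∃ θ' : Matrix (Fin n) (Fin n) k,
          (θ'.map (algebraMap k L) * ψ).trace = 0 ∧ η = θ'.map (algebraMap k L)}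

variable {Q : Matrix (Fin n) (Fin n) k} {ψ : Matrix (Fin n) (Fin n) L} {z l : Fin n → L}

lemma Hyp.mulVec_psi (H : Hyp Q ψ z l) (v : Fin n → L) : ψ *ᵥ v = (l ⬝ᵥ v) • z := by
  rw [H.rank]
  ext i
  simp only [Matrix.mulVec, Matrix.vecMulVec_apply, dotProduct, Pi.smul_apply, smul_eq_mul,
    Finset.sum_mul]
  exact Finset.sum_congr rfl fun j _ => by ring

lemma Hyp.lie_mem (H : Hyp Q ψ z l) {A B : Matrix (Fin n) (Fin n) k} (hA : A ∈ SS k ψ)
    (hB : B ∈ SS k ψ) : A * B - B * A ∈ SS k ψ :=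
  Pool.Agent.Helper15.BM.lie_mem ψ H.last hA hB

/-- `V` is a simple module. -/
lemma Hyp.irred (H : Hyp Q ψ z l) (U : Submodule k (Fin n → k))
    (hU : ∀ A ∈ SS k ψ, ∀ u ∈ U, A *ᵥ u ∈ U) (hne : U ≠ ⊥) : U = ⊤ := by
  by_contra hcon
  obtain ⟨f, hf, hfU⟩ := Submodule.exists_le_ker_of_lt_top U (lt_top_iff_ne_top.2 hcon)
  obtain ⟨u, hu, hu0⟩ := Submodule.exists_mem_ne_zero_of_ne_bot hne
  set r : Fin n → k := fun j => f (Pi.single j 1) with hr
  have hfr : ∀ v : Fin n → k, f v = r ⬝ᵥ v := by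
    intro v
    rw [hr]
    conv_lhs => rw [← LinearMap.sum_single_apply (fun _ : Fin n => k) v]
    rw [map_sum]
    simp only [dotProduct]
    refine Finset.sum_congr rfl fun j _ => ?_
    have : (Pi.single j (v j) : Fin n → k) = v j • Pi.single j 1 := by
      rw [← Pi.single_smul, smul_eq_mul, mul_one]
    rw [this, map_smul, smul_eq_mul, mul_comm]
  have hr0 : r ≠ 0 := by
    intro h0
    apply hf
    ext v
    simp [hfr, h0]
  have h1 : ((Matrix.vecMulVec u r).map (algebraMap k L) * ψ).trace = 0 := by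
    apply perp_SS
    intro A hA
    have h2 : (Matrix.vecMulVec u r * A).trace = r ⬝ᵥ (A *ᵥ u) := by
      rw [Matrix.trace_mul_comm, Matrix.mul_vecMulVec, Matrix.trace_vecMulVec, dotProduct_comm]
    rw [h2, ← hfr]
    exact LinearMap.mem_ker.1 (hfU (hU A hA u hu))
  have h3 : (Matrix.vecMulVec u r).map (algebraMap k L) =
      Matrix.vecMulVec (fun i => algebraMap k L (u i)) (fun i => algebraMap k L (r i)) := by
    ext i j
    simp [Matrix.vecMulVec_apply]
  rw [h3, H.rank, Matrix.trace_mul_comm, Matrix.mul_vecMulVec, Matrix.trace_vecMulVec,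
    ← H.rank, H.mulVec_psi, smul_dotProduct, smul_eq_mul] at h1
  rcases mul_eq_zero.1 h1 with h4 | h4
  · apply hu0
    apply H.inj
    rw [H.mulVec_psi, h4, zero_smul]
  · apply hr0
    have h5 : Q *ᵥ r = 0 := by
      apply H.inj
      have h6 : (fun i => algebraMap k L ((Q *ᵥ r) i)) =
          Q.map (algebraMap k L) *ᵥ (fun i => algebraMap k L (r i)) := by
        ext i
        simp [Matrix.mulVec, dotProduct, map_sum]
      rw [h6, Matrix.mulVec_mulVec, eq_neg_of_add_eq_zero_left H.skew, Matrix.neg_mulVec,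
        ← Matrix.mulVec_mulVec]
      have h7 : ψᵀ *ᵥ (fun i => algebraMap k L (r i)) = 0 := by
        rw [Matrix.mulVec_transpose, H.rank]
        ext j
        simp only [Matrix.vecMul, Matrix.vecMulVec_apply, dotProduct, Pi.zero_apply]
        have : (∑ i, algebraMap k L (r i) * (z i * l j)) =
            (z ⬝ᵥ fun i => algebraMap k L (r i)) * l j := by
          simp only [dotProduct, Finset.sum_mul]
          exact Finset.sum_congr rfl fun i _ => by ring
        rw [this, h4, zero_mul]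
      rw [h7, Matrix.mulVec_zero, neg_zero]
    have h8 := Matrix.eq_zero_of_mulVec_eq_zero H.detQ h5
    exact h8

end Pool.Agent.Helper15.BM
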