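import Pool.Agent.Helper15.BM.LieB

/-!
# Package P6, part C: Cartan's criterion and Jacobson density
-/

set_option autoImplicit false

open Matrix Finset Module

namespace Pool.Agent.Helper15.BM

variable {k L : Type} [Field k] [Field L] [Algebra k L] {n : ℕ}
variable {Q : Matrix (Fin n) (Fin n) k} {ψ : Matrix (Fin n) (Fin n) L} {z l : Fin n → L}

attribute [local instance 100] LieRing.ofAssociativeRing

/-- `SS ψ` as a Lie algebra of endomorphisms. -/
def Hyp.lieAlg (H : Hyp Q ψ z l) : LieSubalgebra k (Module.End k (Fin n → k)) where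
  carrier := {T | LinearMap.toMatrix' T ∈ SS k ψ}
  zero_mem' := by
    simp only [Set.mem_ofPred_eq, map_zero]
    exact (SS k ψ).zero_mem
  add_mem' := by
    intro A B hA hB
    simp only [Set.mem_ofPred_eq, map_add] at *
    exact (SS k ψ).add_mem hA hB
  smul_mem' := by
    intro c A hA
    simp only [Set.mem_ofPred_eq, map_smul] at *
    exact (SS k ψ).smul_mem c hA
  lie_mem' := by
    intro A B hA hB
    simp only [Set.mem_ofPred_eq, LieRing.of_associative_ring_bracket, map_sub,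
      LinearMap.toMatrix'_mul] at *
    exact H.lie_mem hA hB

lemma Hyp.mem_lieAlg (H : Hyp Q ψ z l) {T : Module.End k (Fin n → k)} :
    T ∈ H.lieAlg ↔ LinearMap.toMatrix' T ∈ SS k ψ := Iff.rfl

lemma Hyp.traceForm_zero (H : Hyp Q ψ z l)
    (h : ∀ A ∈ SS k ψ, (A.map (algebraMap k L) * ψ).trace = 0) :
    LieModule.traceForm k H.lieAlg (Fin n → k) = 0 := by
  ext ⟨T, hT⟩ ⟨U, hU⟩
  rw [LieModule.traceForm_apply_apply]
  have h1 : (LieModule.toEnd k H.lieAlg (Fin n → k) ⟨T, hT⟩) = T := rfl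
  have h2 : (LieModule.toEnd k H.lieAlg (Fin n → k) ⟨U, hU⟩) = U := rfl
  rw [h1, h2]
  rw [H.mem_lieAlg] at hT hU
  have h3 := hU _ (h _ hT)
  rw [← LinearMap.toMatrix'_comp, ← Matrix.trace_toLin'_eq, Matrix.toLin'_toMatrix'] at h3
  exact h3

lemma Hyp.comm_of (H : Hyp Q ψ z l) [CharZero k]
    (h : ∀ A ∈ SS k ψ, (A.map (algebraMap k L) * ψ).trace = 0) :
    ∀ A ∈ SS k ψ, ∀ B ∈ SS k ψ, A * B - B * A = 0 := by
  have hn := H.n2
  have : Nonempty (Fin n) := ⟨⟨0, by omega⟩⟩
  have hnil := LieModule.isNilpotent_derivedSeries_of_traceForm_eq_zero (H.traceForm_zero h)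
  let U : Submodule k (Fin n → k) :=
    { carrier := {v | ∀ A ∈ SS k ψ, ∀ B ∈ SS k ψ, (A * B - B * A) *ᵥ v = 0}
      zero_mem' := by intro A _ B _; exact Matrix.mulVec_zero _
      add_mem' := by
        intro v w hv hw A hA B hB
        rw [Matrix.mulVec_add, hv A hA B hB, hw A hA B hB, add_zero]
      smul_mem' := by
        intro c v hv A hA B hB
        rw [Matrix.mulVec_smul, hv A hA B hB, smul_zero] }
  have hU : U = ⊤ := by
    refine H.irred U ?_ ?_
    · intro C hC v hv A hA B hB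
      have h1 : (A * B - B * A) *ᵥ (C *ᵥ v) = ((A * B - B * A) * C - C * (A * B - B * A)) *ᵥ v +
          C *ᵥ ((A * B - B * A) *ᵥ v) := by
        rw [Matrix.mulVec_mulVec, Matrix.mulVec_mulVec, ← Matrix.add_mulVec, sub_add_cancel]
      rw [h1, hv A hA B hB, Matrix.mulVec_zero, add_zero]
      exact hv _ (H.lie_mem hA hB) _ hC
    · have hnt : Nontrivial (LieModule.maxTrivSubmodule k
          (LieAlgebra.derivedSeries k H.lieAlg 1) (Fin n → k)) :=
        LieModule.nontrivial_max_triv_of_isNilpotent k _ _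
      obtain ⟨⟨v, hv⟩, hv0⟩ := exists_ne (0 : LieModule.maxTrivSubmodule k
          (LieAlgebra.derivedSeries k H.lieAlg 1) (Fin n → k))
      intro hbot
      apply hv0
      have hvU : v ∈ U := by
        intro A hA B hB
        rw [LieModule.mem_maxTrivSubmodule] at hv
        let a : H.lieAlg := ⟨Matrix.toLin' A, by
          rw [H.mem_lieAlg, LinearMap.toMatrix'_toLin']; exact hA⟩
        let b : H.lieAlg := ⟨Matrix.toLin' B, by
          rw [H.mem_lieAlg, LinearMap.toMatrix'_toLin']; exact hB⟩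
        have hab : ⁅a, b⁆ ∈ LieAlgebra.derivedSeries k H.lieAlg 1 := by
          rw [LieAlgebra.derivedSeries_def, LieAlgebra.derivedSeriesOfIdeal_succ,
            LieAlgebra.derivedSeriesOfIdeal_zero]
          exact LieSubmodule.lie_mem_lie (LieSubmodule.mem_top _) (LieSubmodule.mem_top _)
        have h2 := hv ⟨⁅a, b⁆, hab⟩
        have h3 : (⟨⁅a, b⁆, hab⟩ : LieAlgebra.derivedSeries k H.lieAlg 1) = ⟨⁅a, b⁆, hab⟩ := rfl
        have h4 : ⁅(⟨⁅a, b⁆, hab⟩ : LieAlgebra.derivedSeries k H.lieAlg 1), v⁆ =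
            (A * B - B * A) *ᵥ v := by
          change (Matrix.toLin' A * Matrix.toLin' B - Matrix.toLin' B * Matrix.toLin' A) v = _
          rw [LinearMap.sub_apply, Module.End.mul_apply, Module.End.mul_apply,
            Matrix.toLin'_apply, Matrix.toLin'_apply, Matrix.toLin'_apply, Matrix.toLin'_apply,
            Matrix.sub_mulVec, Matrix.mulVec_mulVec, Matrix.mulVec_mulVec]
        rw [h4] at h2
        exact h2
      rw [hbot, Submodule.mem_bot] at hvU
      exact Subtype.ext hvU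
  intro A hA B hB
  have h5 : ∀ v, (A * B - B * A) *ᵥ v = 0 := by
    intro v
    have : v ∈ U := by rw [hU]; trivial
    exact this A hA B hB
  ext i j
  have := congr_fun (h5 (Pi.single j 1)) i
  simpa using this

/-- There is an element of `SS ψ` not orthogonal to `ψ`. -/
lemma Hyp.exists_trace (H : Hyp Q ψ z l) [CharZero k] :
    ∃ A ∈ SS k ψ, (A.map (algebraMap k L) * ψ).trace ≠ 0 := by
  by_contra hcon
  push Not at hcon
  have h1 := H.comm_of hcon
  have h2 : ∀ A ∈ SS k ψ, ∃ c : k, A = Matrix.diagonal fun _ => c := by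
    intro A hA
    apply H.com
    apply comm_SS
    intro B hB
    exact sub_eq_zero.1 (h1 A hA B hB)
  have h3 : ∀ B ∈ SL k ψ, ∃ c : L, B = Matrix.diagonal fun _ => c := by
    intro B hB
    induction hB using Submodule.span_induction with
    | mem x hx =>
      obtain ⟨A, hA, rfl⟩ := hx
      obtain ⟨c, rfl⟩ := h2 A hA
      refine ⟨algebraMap k L c, ?_⟩
      ext i j
      by_cases h : i = j
      · subst h; simp
      · simp [Matrix.diagonal_apply_ne _ h]
    | zero => exact ⟨0, by simp⟩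
    | add x y _ _ hx hy =>
      obtain ⟨c, rfl⟩ := hx
      obtain ⟨d, rfl⟩ := hy
      exact ⟨c + d, by rw [Matrix.diagonal_add]⟩
    | smul a x _ hx =>
      obtain ⟨c, rfl⟩ := hx
      refine ⟨a * c, ?_⟩
      ext i j
      by_cases h : i = j
      · subst h; simp
      · simp [Matrix.diagonal_apply_ne _ h]
  obtain ⟨c, hc⟩ := h3 ψ (psi_mem ψ)
  have hn := H.n2
  have h01 : ψ ⟨0, by omega⟩ ⟨1, by omega⟩ = 0 := by
    rw [hc, Matrix.diagonal_apply_ne]
    simp [Fin.ext_iff]
  have h00 : ψ ⟨0, by omega⟩ ⟨0, by omega⟩ = c := by rw [hc, Matrix.diagonal_apply_eq]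
  have h11 : ψ ⟨1, by omega⟩ ⟨1, by omega⟩ = c := by rw [hc, Matrix.diagonal_apply_eq]
  have hc0 : c ≠ 0 := by
    intro h0
    apply H.ne
    rw [hc, h0]
    simp
  rw [H.rank, Matrix.vecMulVec_apply] at h01 h00 h11
  rcases mul_eq_zero.1 h01 with h | h
  · rw [h, zero_mul] at h00
    exact hc0 h00.symm
  · rw [h, mul_zero] at h11
    exact hc0 h11.symm

end Pool.Agent.Helper15.BM
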