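import Pool.Agent.Helper15.BM.LieC

/-!
# Package P6, part D: Jacobson density
-/

set_option autoImplicit false

open Matrix Finset Module

namespace Pool.Agent.Helper15.BM

variable {k L : Type} [Field k] [Field L] [Algebra k L] {n : ℕ}
variable {Q : Matrix (Fin n) (Fin n) k} {ψ : Matrix (Fin n) (Fin n) L} {z l : Fin n → L}

/-- The associative algebra generated by `SS ψ`, as endomorphisms. -/
def Hyp.alg (_H : Hyp Q ψ z l) : Subalgebra k (Module.End k (Fin n → k)) :=
  Algebra.adjoin k {T | LinearMap.toMatrix' T ∈ SS k ψ}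

lemma Hyp.toLin'_mem (H : Hyp Q ψ z l) {A : Matrix (Fin n) (Fin n) k} (hA : A ∈ SS k ψ) :
    Matrix.toLin' A ∈ H.alg := by
  apply Algebra.subset_adjoin
  change LinearMap.toMatrix' (Matrix.toLin' A) ∈ SS k ψ
  rw [LinearMap.toMatrix'_toLin']
  exact hA

lemma Hyp.simple (H : Hyp Q ψ z l) : IsSimpleModule H.alg (Fin n → k) := by
  have hn := H.n2
  have : Nonempty (Fin n) := ⟨⟨0, by omega⟩⟩
  rw [isSimpleModule_iff]
  refine { toNontrivial := inferInstance, eq_bot_or_eq_top := fun W => ?_ }
  let U : Submodule k (Fin n → k) :=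
    { carrier := W
      zero_mem' := W.zero_mem
      add_mem' := fun ha hb => W.add_mem ha hb
      smul_mem' := by
        intro c v hv
        have h1 : c • v = (algebraMap k H.alg c) • v := by
          rw [algebraMap_smul]
        rw [h1]
        exact W.smul_mem _ hv }
  have hUW : ∀ v, v ∈ U ↔ v ∈ W := fun v => Iff.rfl
  by_cases hU : U = ⊥
  · left
    rw [eq_bot_iff]
    intro v hv
    have : v ∈ U := hv
    rw [hU, Submodule.mem_bot] at this
    rw [Submodule.mem_bot]
    exact this
  · right
    have h1 := H.irred U (fun A hA u hu => ?_) hU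
    · rw [eq_top_iff]
      intro v _
      rw [← hUW, h1]
      trivial
    · have h2 : A *ᵥ u = (⟨Matrix.toLin' A, H.toLin'_mem hA⟩ : H.alg) • u := by
        rw [← Matrix.toLin'_apply]
        rfl
      rw [hUW, h2]
      exact W.smul_mem _ hu

/-- The endomorphisms of the simple module are scalars. -/
lemma Hyp.end_scalar (H : Hyp Q ψ z l) (g : Module.End H.alg (Fin n → k)) :
    ∃ c : k, ∀ v, g v = c • v := by
  have hk : ∀ (c : k) (v : Fin n → k), g (c • v) = c • g v := by
    intro c v
    have h1 : c • v = (algebraMap k H.alg c) • v := by rw [algebraMap_smul]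
    rw [h1, map_smul, algebraMap_smul]
  let g' : (Fin n → k) →ₗ[k] (Fin n → k) :=
    { toFun := g, map_add' := map_add g, map_smul' := hk }
  have h1 : (LinearMap.toMatrix' g').map (algebraMap k L) * ψ =
      ψ * (LinearMap.toMatrix' g').map (algebraMap k L) := by
    apply comm_SS
    intro A hA
    have h2 : g' ∘ₗ Matrix.toLin' A = Matrix.toLin' A ∘ₗ g' := by
      refine LinearMap.ext fun v => ?_
      change g (Matrix.toLin' A v) = Matrix.toLin' A (g v)
      have h3 : ∀ w : Fin n → k, Matrix.toLin' A w =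
          (⟨Matrix.toLin' A, H.toLin'_mem hA⟩ : H.alg) • w := fun w => rfl
      rw [h3, h3, map_smul]
    have h4 := congrArg LinearMap.toMatrix' h2
    rw [LinearMap.toMatrix'_comp, LinearMap.toMatrix'_comp, LinearMap.toMatrix'_toLin'] at h4
    exact h4
  obtain ⟨c, hc⟩ := H.com _ h1
  refine ⟨c, fun v => ?_⟩
  have h5 : g v = Matrix.toLin' (LinearMap.toMatrix' g') v := by
    rw [Matrix.toLin'_toMatrix']
    rfl
  rw [h5, hc, Matrix.toLin'_apply]
  ext i
  rw [Matrix.mulVec_diagonal]
  simp

/-- Burnside's theorem for `SS ψ`. -/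
lemma Hyp.alg_eq_top (H : Hyp Q ψ z l) : H.alg = ⊤ := by
  classical
  rw [eq_top_iff]
  intro T _
  have := H.simple
  let f : Module.End (Module.End H.alg (Fin n → k)) (Fin n → k) :=
    { toFun := T
      map_add' := map_add T
      map_smul' := by
        intro g v
        obtain ⟨c, hc⟩ := H.end_scalar g
        change T (g v) = g (T v)
        rw [hc, hc, map_smul] }
  obtain ⟨r, hr⟩ := jacobson_density (R := H.alg) (M := Fin n → k) f (Finset.univ.image fun i : Fin n =>
    (Pi.single i 1 : Fin n → k))
  have h1 : T = (r : Module.End k (Fin n → k)) := by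
    apply LinearMap.pi_ext'
    intro i
    ext1
    exact hr _ (Finset.mem_image.2 ⟨i, Finset.mem_univ _, rfl⟩)
  rw [h1]
  exact r.2

/-- An `L`-subspace which is stable under `SS ψ` is stable under all matrices over `k`. -/
lemma Hyp.stable (H : Hyp Q ψ z l) (W : Submodule L (Fin n → L))
    (hW : ∀ A ∈ SS k ψ, ∀ w ∈ W, A.map (algebraMap k L) *ᵥ w ∈ W) (B : Matrix (Fin n) (Fin n) k) :
    ∀ w ∈ W, B.map (algebraMap k L) *ᵥ w ∈ W := by
  have h1 : ∀ T : Module.End k (Fin n → k), T ∈ H.alg →
      ∀ w ∈ W, (LinearMap.toMatrix' T).map (algebraMap k L) *ᵥ w ∈ W := by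
    intro T hT
    induction hT using Algebra.adjoin_induction with
    | mem x hx => exact hW _ hx
    | algebraMap c =>
      intro w hw
      have h2 : (LinearMap.toMatrix' (algebraMap k (Module.End k (Fin n → k)) c)).map
          (algebraMap k L) *ᵥ w = (algebraMap k L c) • w := by
        have h3 : LinearMap.toMatrix' (algebraMap k (Module.End k (Fin n → k)) c) =
            Matrix.diagonal fun _ => c := by
          rw [LinearMap.toMatrix'_algebraMap]
          rfl
        rw [h3]
        ext i
        rw [Matrix.diagonal_map (map_zero _), Matrix.mulVec_diagonal]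
        rfl
      rw [h2]
      exact W.smul_mem _ hw
    | add x y _ _ hx hy =>
      intro w hw
      rw [map_add, Matrix.map_add _ (map_add _), Matrix.add_mulVec]
      exact W.add_mem (hx w hw) (hy w hw)
    | mul x y _ _ hx hy =>
      intro w hw
      rw [LinearMap.toMatrix'_mul, Matrix.map_mul, ← Matrix.mulVec_mulVec]
      exact hx _ (hy w hw)
  have h2 := h1 (Matrix.toLin' B) (by rw [H.alg_eq_top]; trivial)
  rw [LinearMap.toMatrix'_toLin'] at h2
  exact h2

/-- `L^n` is a simple module over the span of `SS ψ`. -/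
lemma Hyp.dense (H : Hyp Q ψ z l) (W : Submodule L (Fin n → L))
    (hW : ∀ A ∈ SS k ψ, ∀ w ∈ W, A.map (algebraMap k L) *ᵥ w ∈ W) (hne : W ≠ ⊥) (v : Fin n → L) :
    v ∈ W := by
  obtain ⟨w, hw, hw0⟩ := Submodule.exists_mem_ne_zero_of_ne_bot hne
  obtain ⟨i, hi⟩ : ∃ i, w i ≠ 0 := by
    by_contra hcon
    push Not at hcon
    exact hw0 (funext hcon)
  have h1 : ∀ j : Fin n, (Pi.single j 1 : Fin n → L) ∈ W := by
    intro j
    have h2 := H.stable W hW (Matrix.single j i 1) w hw
    have h3 : (Matrix.single j i (1 : k)).map (algebraMap k L) *ᵥ w =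
        w i • (Pi.single j 1 : Fin n → L) := by
      ext t
      simp only [Matrix.mulVec, dotProduct, Matrix.map_apply, Matrix.single_apply, Pi.smul_apply,
        Pi.single_apply, smul_eq_mul]
      by_cases htj : t = j
      · subst htj
        simp
      · simp [htj, Ne.symm htj]
    rw [h3] at h2
    have h4 := W.smul_mem (w i)⁻¹ h2
    rw [smul_smul, inv_mul_cancel₀ hi, one_smul] at h4
    exact h4
  have h5 : v = ∑ j, v j • (Pi.single j 1 : Fin n → L) := by
    ext t
    simp [Finset.sum_apply, Pi.single_apply]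
  rw [h5]
  exact Submodule.sum_mem _ fun j _ => W.smul_mem _ (h1 j)

end Pool.Agent.Helper15.BM
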