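import Pool.Agent.Helper15.BM.LieD
import Pool.Agent.Helper62.BM.Stm

/-!
# Package P6, part E: the symplectic Lie algebra
-/

set_option autoImplicit false

open Matrix Finset Module

namespace Pool.Agent.Helper15.BM

section calculus

variable {F : Type} [Field F] {n : ℕ} (P : Matrix (Fin n) (Fin n) F)

/-- The alternating form. -/
def om (x y : Fin n → F) : F := (x ᵥ* P) ⬝ᵥ y

/-- The element `x y + y x` of the symplectic Lie algebra. -/
def mm (x y : Fin n → F) : Matrix (Fin n) (Fin n) F :=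
  Matrix.vecMulVec x (y ᵥ* P) + Matrix.vecMulVec y (x ᵥ* P)

variable {P}

lemma mm_symm (x y : Fin n → F) : mm P x y = mm P y x := by
  unfold mm; exact add_comm _ _

lemma mm_add_right (x y w : Fin n → F) : mm P x (y + w) = mm P x y + mm P x w := by
  unfold mm
  rw [Matrix.add_vecMul, Matrix.vecMulVec_add, Matrix.add_vecMulVec]
  abel

lemma mm_smul_right (c : F) (x y : Fin n → F) : mm P x (c • y) = c • mm P x y := by
  unfold mm
  rw [Matrix.smul_vecMul, Matrix.vecMulVec_smul, Matrix.smul_vecMulVec, smul_add]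

lemma mm_smul_left (c : F) (x y : Fin n → F) : mm P (c • x) y = c • mm P x y := by
  rw [mm_symm, mm_smul_right, mm_symm]

lemma mm_add_left (x y w : Fin n → F) : mm P (x + y) w = mm P x w + mm P y w := by
  rw [mm_symm, mm_add_right, mm_symm, mm_symm w y]

lemma mm_zero_right (x : Fin n → F) : mm P x 0 = 0 := by
  have := mm_smul_right (P := P) 0 x 0
  rwa [zero_smul, zero_smul] at this

lemma om_skew (hP : Pᵀ = -P) (x y : Fin n → F) : om P x y = -om P y x := by
  unfold om
  rw [← Matrix.dotProduct_mulVec, ← Matrix.vecMul_transpose, hP, Matrix.vecMul_neg,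
    dotProduct_neg, dotProduct_comm]

lemma om_self [CharZero F] (hP : Pᵀ = -P) (x : Fin n → F) : om P x x = 0 := by
  have h := om_skew hP x x
  have h2 : (2 : F) * om P x x = 0 := by linear_combination h
  exact (mul_eq_zero.1 h2).resolve_left two_ne_zero

lemma mm_mulVec (x y v : Fin n → F) :
    mm P x y *ᵥ v = om P y v • x + om P x v • y := by
  unfold mm om
  rw [Matrix.add_mulVec]
  ext i
  simp only [Pi.add_apply, Pi.smul_apply, smul_eq_mul, Matrix.mulVec, dotProduct,
    Matrix.vecMulVec_apply]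
  rw [Finset.sum_mul, Finset.sum_mul]
  congr 1 <;> exact Finset.sum_congr rfl fun j _ => by ring

/-- The adjoint action. -/
lemma lie_mm (A : Matrix (Fin n) (Fin n) F) (hA : P * A + Aᵀ * P = 0) (x y : Fin n → F) :
    A * mm P x y - mm P x y * A = mm P (A *ᵥ x) y + mm P x (A *ᵥ y) := by
  have h1 : ∀ w : Fin n → F, (w ᵥ* P) ᵥ* A = -((A *ᵥ w) ᵥ* P) := by
    intro w
    rw [Matrix.vecMul_vecMul, eq_neg_of_add_eq_zero_left hA, Matrix.vecMul_neg,
      ← Matrix.vecMul_vecMul, Matrix.vecMul_transpose]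
  unfold mm
  rw [Matrix.mul_add, Matrix.add_mul, Matrix.mul_vecMulVec, Matrix.mul_vecMulVec,
    Matrix.vecMulVec_mul, Matrix.vecMulVec_mul, h1, h1, Matrix.vecMulVec_neg,
    Matrix.vecMulVec_neg]
  abel

lemma mm_skew (hP : Pᵀ = -P) (x y : Fin n → F) :
    P * mm P x y + (mm P x y)ᵀ * P = 0 := by
  have h1 : ∀ w : Fin n → F, P *ᵥ w = -(w ᵥ* P) := by
    intro w
    rw [← Matrix.vecMul_transpose, hP, Matrix.vecMul_neg]
  unfold mm
  rw [Matrix.transpose_add, Matrix.transpose_vecMulVec, Matrix.transpose_vecMulVec,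
    Matrix.mul_add, Matrix.add_mul, Matrix.mul_vecMulVec, Matrix.mul_vecMulVec,
    Matrix.vecMulVec_mul, Matrix.vecMulVec_mul, h1, h1, Matrix.neg_vecMulVec,
    Matrix.neg_vecMulVec]
  abel

end calculus

section main

variable {k L : Type} [Field k] [Field L] [Algebra k L] {n : ℕ}
variable {Q : Matrix (Fin n) (Fin n) k} {ψ : Matrix (Fin n) (Fin n) L} {z l : Fin n → L}

/-- The inverse of `Q` over `L`. -/
noncomputable def PL (L : Type) [Field L] [Algebra k L] (Q : Matrix (Fin n) (Fin n) k) :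
    Matrix (Fin n) (Fin n) L := Q⁻¹.map (algebraMap k L)

lemma Hyp.isUnit_det (H : Hyp Q ψ z l) : IsUnit Q.det := isUnit_iff_ne_zero.2 H.detQ

lemma Hyp.PL_mul (H : Hyp Q ψ z l) : PL L Q * Q.map (algebraMap k L) = 1 := by
  unfold PL
  rw [← Matrix.map_mul, Matrix.nonsing_inv_mul _ H.isUnit_det]
  simp

lemma Hyp.mul_PL (H : Hyp Q ψ z l) : Q.map (algebraMap k L) * PL L Q = 1 := by
  unfold PL
  rw [← Matrix.map_mul, Matrix.mul_nonsing_inv _ H.isUnit_det]
  simp

lemma Hyp.PL_skew (H : Hyp Q ψ z l) : (PL L Q)ᵀ = -PL L Q := by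
  unfold PL
  rw [← Matrix.transpose_map, Matrix.transpose_nonsing_inv, H.skewQ]
  have h1 : (-Q)⁻¹ = -Q⁻¹ := by
    apply Matrix.inv_eq_right_inv
    rw [neg_mul_neg, Matrix.mul_nonsing_inv _ H.isUnit_det]
  rw [h1]
  ext i j
  simp

lemma Hyp.psiQ_symm (H : Hyp Q ψ z l) :
    (ψ * Q.map (algebraMap k L))ᵀ = ψ * Q.map (algebraMap k L) := by
  have h1 : (Q.map (algebraMap k L))ᵀ = -Q.map (algebraMap k L) := by
    rw [← Matrix.transpose_map, H.skewQ]
    ext i j
    simp
  rw [Matrix.transpose_mul, h1, Matrix.neg_mul, neg_eq_iff_eq_neg]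
  exact (eq_neg_of_add_eq_zero_right H.skew)

/-- `SS ψ` is contained in the symplectic Lie algebra. -/
lemma Hyp.symp (H : Hyp Q ψ z l) {A : Matrix (Fin n) (Fin n) k} (hA : A ∈ SS k ψ) :
    A * Q + Q * Aᵀ = 0 := by
  have h1 : ∀ i j : Fin n, (A * Q) j i = (A * Q) i j := by
    intro i j
    have h2 : ((Q * (Matrix.single i j (1 : k) - Matrix.single j i 1)).map (algebraMap k L) *
        ψ).trace = 0 := by
      rw [Matrix.map_mul, Matrix.mul_assoc, Matrix.trace_mul_comm, Matrix.mul_assoc,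
        Matrix.map_sub _ (map_sub _), Matrix.sub_mul, Matrix.trace_sub]
      have h3 : ∀ a b : Fin n, ((Matrix.single a b (1 : k)).map (algebraMap k L) *
          (ψ * Q.map (algebraMap k L))).trace = (ψ * Q.map (algebraMap k L)) b a := by
        intro a b
        have h4 : (Matrix.single a b (1 : k)).map (algebraMap k L) = Matrix.single a b (1 : L) := by
          ext i j
          simp only [Matrix.map_apply, Matrix.single_apply]
          split_ifs <;> simp
        rw [h4, Matrix.trace_single_mul, one_smul]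
      rw [h3, h3, sub_eq_zero]
      exact congr_fun (congr_fun H.psiQ_symm i) j
    have h4 := hA _ h2
    rw [Matrix.mul_assoc, Matrix.trace_mul_comm, Matrix.mul_assoc, Matrix.sub_mul,
      Matrix.trace_sub] at h4
    simp only [Matrix.trace_single_mul] at h4
    simpa [sub_eq_zero] using h4
  have h5 : (A * Q)ᵀ = A * Q := by
    ext i j
    exact h1 i j
  rw [Matrix.transpose_mul, H.skewQ, Matrix.neg_mul] at h5
  rw [← h5]
  abel

end main

end Pool.Agent.Helper15.BM
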